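import Pool.Agent.H72.DJ.Defs

/-!
# Independent factors along a column

`c = 1 / (1 + (1-p)^(-6))`. The weight `isw` changes by a factor between `(1-p)^6` and `(1-p)^(-6)`
if one spin is flipped (at most six edges contain the site). So for a site `y` of the box, a value
`b` and a function `f ≥ 0` of the spins which does not depend on the spin at `y`,
`∑_τ isw f (1 - p [τ y = b]) ≤ (1 - p c) ∑_τ isw f`: pair `τ` with its flip at `y`; with
`A = isw` at value `b`, `B = isw` at value `!b`: `A (1-p) + B ≤ (1 - p c)(A + B)` iff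
`c (A + B) ≤ A` iff `c B ≤ (1-c) A`, and `B ≤ (1-p)^(-6) A = ((1-c)/c) A`.
Induction over the list of the sites gives the theorem.
-/

set_option autoImplicit false

namespace Pool.Agent.H72.DJ

/-- change of one spin -/
private def flp {L M : ℕ} (y : box L M) (τ : box L M → Bool) : box L M → Bool :=
  Function.update τ y (!τ y)

private lemma flp_flp {L M : ℕ} (y : box L M) (τ : box L M → Bool) : flp y (flp y τ) = τ := by
  unfold flp
  rw [Function.update_self, Function.update_idem, Bool.not_not, Function.update_eq_self]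

private lemma sum_flp {L M : ℕ} (y : box L M) (F : (box L M → Bool) → ℝ) :
    ∑ τ, F (flp y τ) = ∑ τ, F τ :=
  Equiv.sum_comp (⟨flp y, flp y, flp_flp y, flp_flp y⟩ : (box L M → Bool) ≃ (box L M → Bool)) F

private lemma spin_flp_ne {L M : ℕ} (y : box L M) (τ : box L M → Bool) (x : Vtx) (hx : x ≠ y) :
    spin L M (flp y τ) x = spin L M τ x := by
  unfold spin flp
  split_ifs with h
  · rw [Function.update_of_ne]
    intro h'
    exact hx (congrArg Subtype.val h')
  · rfl

private lemma spin_mem {L M : ℕ} (τ : box L M → Bool) (y : box L M) :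
    spin L M τ y = τ y := by
  unfold spin
  rw [dif_pos y.2]

private lemma spin_flp {L M : ℕ} (τ : box L M → Bool) (y : box L M) :
    spin L M (flp y τ) y = !spin L M τ y := by
  rw [spin_mem, spin_mem]
  unfold flp
  rw [Function.update_self]

private lemma card_at (L M : ℕ) (y : Vtx) :
    ((edges L M).filter (fun e => e.1 = y ∨ e.1 + unit e.2 = y)).card ≤ 6 := by
  have h : (edges L M).filter (fun e => e.1 = y ∨ e.1 + unit e.2 = y) ⊆
      (Finset.univ : Finset (Fin 3 × Bool)).image
        (fun i => if i.2 = true then (y, i.1) else (y - unit i.1, i.1)) := by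
    intro e he
    rw [Finset.mem_image]
    rcases (Finset.mem_filter.1 he).2 with h1 | h1
    · exact ⟨(e.2, true), Finset.mem_univ _, by rw [if_pos rfl, ← h1]⟩
    · refine ⟨(e.2, false), Finset.mem_univ _, ?_⟩
      rw [if_neg (by simp), ← h1, add_sub_cancel_right]
  calc _ ≤ _ := Finset.card_le_card h
    _ ≤ _ := Finset.card_image_le
    _ = 6 := by simp

private lemma isw_flp (L M : ℕ) (p : ℝ) (hp0 : 0 < p) (hp1 : p < 1) (y : box L M)
    (τ : box L M → Bool) :
    (1 - p) ^ 6 * isw L M p (spin L M (flp y τ)) ≤ isw L M p (spin L M τ) := by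
  have hq0 : 0 < 1 - p := by linarith
  have hq1 : 1 - p ≤ 1 := by linarith
  have hw0 : ∀ (σ : Vtx → Bool) (e : Edge),
      0 ≤ (if σ e.1 = σ (e.1 + unit e.2) then (1 : ℝ) else 1 - p) := by
    intro σ e
    split_ifs
    · exact zero_le_one
    · exact hq0.le
  have hw1 : ∀ (σ : Vtx → Bool) (e : Edge),
      (if σ e.1 = σ (e.1 + unit e.2) then (1 : ℝ) else 1 - p) ≤ 1 := by
    intro σ e
    split_ifs
    · exact le_rfl
    · exact hq1
  have hw2 : ∀ (σ : Vtx → Bool) (e : Edge),
      1 - p ≤ (if σ e.1 = σ (e.1 + unit e.2) then (1 : ℝ) else 1 - p) := by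
    intro σ e
    split_ifs
    · exact hq1
    · exact le_rfl
  unfold isw
  rw [← Finset.prod_filter_mul_prod_filter_not (edges L M)
    (fun e => e.1 = (y : Vtx) ∨ e.1 + unit e.2 = y),
    ← Finset.prod_filter_mul_prod_filter_not (edges L M)
    (fun e => e.1 = (y : Vtx) ∨ e.1 + unit e.2 = y)
    (fun e => if spin L M τ e.1 = spin L M τ (e.1 + unit e.2) then (1 : ℝ) else 1 - p)]
  have hrest : ∏ e ∈ (edges L M).filter (fun e => ¬ (e.1 = (y : Vtx) ∨ e.1 + unit e.2 = y)),
      (if spin L M (flp y τ) e.1 = spin L M (flp y τ) (e.1 + unit e.2) then (1 : ℝ) else 1 - p) =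
      ∏ e ∈ (edges L M).filter (fun e => ¬ (e.1 = (y : Vtx) ∨ e.1 + unit e.2 = y)),
      (if spin L M τ e.1 = spin L M τ (e.1 + unit e.2) then (1 : ℝ) else 1 - p) := by
    refine Finset.prod_congr rfl fun e he => ?_
    have h1 := (Finset.mem_filter.1 he).2
    push Not at h1
    rw [spin_flp_ne y τ _ h1.1, spin_flp_ne y τ _ h1.2]
  rw [hrest, ← mul_assoc]
  apply mul_le_mul_of_nonneg_right _ (Finset.prod_nonneg fun e _ => hw0 _ e)
  calc (1 - p) ^ 6 * _ ≤ (1 - p) ^ 6 * 1 :=
        mul_le_mul_of_nonneg_left (Finset.prod_le_one (fun e _ => hw0 _ e) fun e _ => hw1 _ e)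
          (by positivity)
    _ = (1 - p) ^ 6 := mul_one _
    _ ≤ (1 - p) ^ ((edges L M).filter (fun e => e.1 = (y : Vtx) ∨ e.1 + unit e.2 = y)).card :=
        pow_le_pow_of_le_one hq0.le hq1 (card_at L M y)
    _ = ∏ _e ∈ (edges L M).filter (fun e => e.1 = (y : Vtx) ∨ e.1 + unit e.2 = y), (1 - p) := by
        rw [Finset.prod_const]
    _ ≤ _ := Finset.prod_le_prod (fun _ _ => hq0.le) fun e _ => hw2 _ e

private lemma isw_nonneg' (L M : ℕ) (p : ℝ) (hp1 : p < 1) (σ : Vtx → Bool) :
    0 ≤ isw L M p σ := by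
  apply Finset.prod_nonneg
  intro e _
  split_ifs
  · exact zero_le_one
  · linarith

private lemma arith_step (p r A B : ℝ) (hp0 : 0 < p) (hr : 0 < r) (h : r * B ≤ A) :
    (1 - p) * A + B ≤ (1 - p * (1 + r⁻¹)⁻¹) * (A + B) := by
  have h1 : 0 < 1 + r⁻¹ := by positivity
  have h2 : (1 + r⁻¹)⁻¹ * (A + B) ≤ A := by
    rw [inv_mul_le_iff₀ h1]
    have h3 : B ≤ r⁻¹ * A := by
      rw [inv_mul_eq_div, le_div_iff₀ hr, mul_comm]
      exact h
    linarith
  nlinarith

private lemma step (L M : ℕ) (p : ℝ) (hp0 : 0 < p) (hp1 : p < 1) (y : box L M) (b : Bool)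
    (f : (box L M → Bool) → ℝ) (hf0 : ∀ τ, 0 ≤ f τ) (hf : ∀ τ, f (flp y τ) = f τ) :
    ∑ τ : box L M → Bool, isw L M p (spin L M τ) *
        ((if spin L M τ y = b then 1 - p else 1) * f τ) ≤
      (1 - p * (1 + ((1 - p) ^ 6)⁻¹)⁻¹) *
        ∑ τ : box L M → Bool, isw L M p (spin L M τ) * f τ := by
  have hr : 0 < (1 - p) ^ 6 := pow_pos (by linarith) 6
  have h1 := sum_flp y (fun τ => isw L M p (spin L M τ) *
        ((if spin L M τ y = b then 1 - p else 1) * f τ))
  have h2 := sum_flp y (fun τ => isw L M p (spin L M τ) * f τ)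
  have h3 : ∑ τ : box L M → Bool, (isw L M p (spin L M τ) *
        ((if spin L M τ y = b then 1 - p else 1) * f τ) +
      isw L M p (spin L M (flp y τ)) *
        ((if spin L M (flp y τ) y = b then 1 - p else 1) * f (flp y τ))) ≤
      ∑ τ : box L M → Bool, (1 - p * (1 + ((1 - p) ^ 6)⁻¹)⁻¹) *
        (isw L M p (spin L M τ) * f τ + isw L M p (spin L M (flp y τ)) * f (flp y τ)) := by
    refine Finset.sum_le_sum fun τ _ => ?_
    rw [hf, spin_flp]
    have ha := isw_flp L M p hp0 hp1 y τ
    have hb := isw_flp L M p hp0 hp1 y (flp y τ)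
    rw [flp_flp] at hb
    have h0 := hf0 τ
    cases hs : spin L M τ y <;> cases b
    · have h4 := arith_step p _ (isw L M p (spin L M τ)) (isw L M p (spin L M (flp y τ))) hp0 hr ha
      have h5 := mul_le_mul_of_nonneg_right h4 h0
      simp only [if_true, Bool.not_false, Bool.true_eq_false, if_false]
      linarith
    · have h4 := arith_step p _ (isw L M p (spin L M (flp y τ))) (isw L M p (spin L M τ)) hp0 hr hb
      have h5 := mul_le_mul_of_nonneg_right h4 h0
      simp only [if_true, Bool.not_false, Bool.false_eq_true, if_false]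
      linarith
    · have h4 := arith_step p _ (isw L M p (spin L M (flp y τ))) (isw L M p (spin L M τ)) hp0 hr hb
      have h5 := mul_le_mul_of_nonneg_right h4 h0
      simp only [if_true, Bool.not_true, Bool.true_eq_false, if_false]
      linarith
    · have h4 := arith_step p _ (isw L M p (spin L M τ)) (isw L M p (spin L M (flp y τ))) hp0 hr ha
      have h5 := mul_le_mul_of_nonneg_right h4 h0
      simp only [if_true, Bool.not_true, Bool.false_eq_true, if_false]
      linarith
  rw [← Finset.mul_sum, Finset.sum_add_distrib, Finset.sum_add_distrib, h1, h2] at h3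
  linarith

theorem col (L M : ℕ) (p : ℝ) (hp0 : 0 < p) (hp1 : p < 1) (S : Finset Vtx) (hS : S ⊆ box L M)
    (b : Bool) :
    ∑ τ : box L M → Bool, isw L M p (spin L M τ) *
        ∏ y ∈ S, (if spin L M τ y = b then 1 - p else 1) ≤
      (1 - p * (1 + ((1 - p) ^ 6)⁻¹)⁻¹) ^ S.card *
        ∑ τ : box L M → Bool, isw L M p (spin L M τ) := by
  classical
  induction S using Finset.induction_on with
  | empty => simp
  | insert y S hy ih =>
    have hyb : y ∈ box L M := hS (Finset.mem_insert_self y S)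
    have ih' := ih fun x hx => hS (Finset.mem_insert_of_mem hx)
    have h1 := step L M p hp0 hp1 ⟨y, hyb⟩ b
      (fun τ => ∏ x ∈ S, (if spin L M τ x = b then 1 - p else 1))
      (fun τ => Finset.prod_nonneg fun x _ => by
        split_ifs
        · linarith
        · exact zero_le_one)
      (fun τ => Finset.prod_congr rfl fun x hx => by
        have hne : x ≠ y := fun h => hy (h ▸ hx)
        have hsp := spin_flp_ne ⟨y, hyb⟩ τ x hne
        simp only [hsp])
    have hr : 0 < (1 - p) ^ 6 := pow_pos (by linarith) 6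
    have hc : (1 + ((1 - p) ^ 6)⁻¹)⁻¹ ≤ 1 := by
      apply inv_le_one_of_one_le₀
      have : 0 < ((1 - p) ^ 6)⁻¹ := inv_pos.2 hr
      linarith
    have hc0 : 0 ≤ (1 + ((1 - p) ^ 6)⁻¹)⁻¹ := by positivity
    have hk : 0 ≤ 1 - p * (1 + ((1 - p) ^ 6)⁻¹)⁻¹ := by nlinarith
    rw [Finset.card_insert_of_notMem hy, pow_succ']
    simp_rw [Finset.prod_insert hy]
    refine h1.trans ?_
    rw [mul_assoc]
    exact mul_le_mul_of_nonneg_left ih' hk

end Pool.Agent.H72.DJ
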