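import Pool.Agent.H72.DJ.Defs

/-!
# The Edwards-Sokal sums

PROOFS. Write `|compat| = ∑_τ [τ compatible]`, exchange the sums; for fixed `τ` the sum over
`η : edges L M → Bool` is a product over `edges L M` (`Finset.prod_univ_sum` /
`Fintype.piFinset`): the factor of `e` is `∑_{b} (if b then p else 1 - p) [b = false or the spins at
the ends are equal] [e ∈ F → b = true]` (resp. `b = false`). For `e ∉ F` it is `1` if the spins are
equal and `1 - p` otherwise, for `e ∈ F` it is `p [spins equal]` (resp. `1 - p`).
-/

set_option autoImplicit false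

namespace Pool.Agent.H72.DJ

private theorem sum_prod (L M : ℕ) (G : Edge → Bool → ℝ) :
    ∑ η : edges L M → Bool, ∏ e ∈ edges L M, G e (extend L M η e) =
      ∏ e ∈ edges L M, (G e true + G e false) := by
  have h1 : ∀ η : edges L M → Bool, ∏ e ∈ edges L M, G e (extend L M η e) =
      ∏ e : edges L M, G e.1 (η e) := by
    intro η
    rw [← Finset.prod_coe_sort]
    refine Finset.prod_congr rfl fun e _ => ?_
    have : extend L M η e.1 = η e := by
      unfold extend
      rw [dif_pos e.2]
    rw [this]
  rw [Finset.sum_congr rfl fun η _ => h1 η, ← Finset.prod_coe_sort]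
  have h2 := Finset.prod_univ_sum (fun _ : edges L M => (Finset.univ : Finset Bool))
    (fun e b => G e.1 b)
  rw [Fintype.piFinset_univ] at h2
  rw [← h2]
  refine Finset.prod_congr rfl fun e _ => ?_
  rw [Fintype.sum_bool]

open Classical in
private theorem main (L M : ℕ) (p : ℝ) (F : Finset Edge) (hF : F ⊆ edges L M) (b₀ : Bool) :
    ∑ η : edges L M → Bool, (if ∀ e ∈ F, extend L M η e = b₀ then esw L M p η else 0) =
      ∑ τ : box L M → Bool, ∏ e ∈ edges L M,
        ((if e ∈ F → true = b₀ then (1 : ℝ) else 0) * (p *
          (if spin L M τ e.1 = spin L M τ (e.1 + unit e.2) then 1 else 0)) +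
         (if e ∈ F → false = b₀ then (1 : ℝ) else 0) * (1 - p)) := by
  have h1 : ∀ η : edges L M → Bool,
      (if ∀ e ∈ F, extend L M η e = b₀ then esw L M p η else 0) =
      ∑ τ : box L M → Bool, ∏ e ∈ edges L M,
        ((if e ∈ F → extend L M η e = b₀ then (1 : ℝ) else 0) *
          ((if extend L M η e = true then p else 1 - p) *
          (if extend L M η e = true → spin L M τ e.1 = spin L M τ (e.1 + unit e.2)
            then 1 else 0))) := by
    intro η
    have hc : ((compat L M (extend L M η)).card : ℝ) = ∑ τ : box L M → Bool,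
        (if ∀ e ∈ edges L M, extend L M η e = true →
          spin L M τ e.1 = spin L M τ (e.1 + unit e.2) then (1 : ℝ) else 0) := by
      unfold compat
      rw [Finset.card_filter]
      push_cast
      rfl
    have hf : (if ∀ e ∈ F, extend L M η e = b₀ then (1 : ℝ) else 0) =
        ∏ e ∈ edges L M, (if e ∈ F → extend L M η e = b₀ then (1 : ℝ) else 0) := by
      rw [Finset.prod_boole]
      congr 1
      apply propext
      constructor
      · intro h e _ he
        exact h e he
      · intro h e he
        exact h e (hF he) he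
    have h2 : (if ∀ e ∈ F, extend L M η e = b₀ then esw L M p η else 0) =
        (if ∀ e ∈ F, extend L M η e = b₀ then (1 : ℝ) else 0) * esw L M p η := by
      split_ifs <;> simp
    rw [h2, hf]
    unfold esw
    rw [hc, Finset.mul_sum, Finset.mul_sum]
    refine Finset.sum_congr rfl fun τ _ => ?_
    rw [Finset.prod_mul_distrib, Finset.prod_mul_distrib, Finset.prod_boole (s := edges L M)
      (p := fun e => extend L M η e = true → spin L M τ e.1 = spin L M τ (e.1 + unit e.2))]
  rw [Finset.sum_congr rfl fun η _ => h1 η, Finset.sum_comm]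
  refine Finset.sum_congr rfl fun τ _ => ?_
  rw [sum_prod L M fun e b => ((if e ∈ F → b = b₀ then (1 : ℝ) else 0) *
          ((if b = true then p else 1 - p) *
          (if b = true → spin L M τ e.1 = spin L M τ (e.1 + unit e.2) then 1 else 0)))]
  refine Finset.prod_congr rfl fun e _ => ?_
  simp

open Classical in
theorem esum_open (L M : ℕ) (p : ℝ) (F : Finset Edge) (hF : F ⊆ edges L M) :
    ∑ η : edges L M → Bool, (if ∀ e ∈ F, extend L M η e = true then esw L M p η else 0) =
      p ^ F.card * ∑ τ : box L M → Bool, isw L M p (spin L M τ) * agree F (spin L M τ) := by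
  rw [main L M p F hF true, Finset.mul_sum]
  refine Finset.sum_congr rfl fun τ _ => ?_
  have h1 : p ^ F.card * agree F (spin L M τ) = ∏ e ∈ edges L M,
      (if e ∈ F then (if spin L M τ e.1 = spin L M τ (e.1 + unit e.2) then p else 0) else 1) := by
    rw [Finset.prod_ite_mem, Finset.inter_eq_right.2 hF]
    unfold agree
    rw [← Finset.prod_boole, ← Finset.prod_const, ← Finset.prod_mul_distrib]
    refine Finset.prod_congr rfl fun e _ => ?_
    split_ifs <;> simp
  rw [mul_left_comm, h1]
  unfold isw
  rw [← Finset.prod_mul_distrib]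
  refine Finset.prod_congr rfl fun e _ => ?_
  by_cases he : e ∈ F <;> by_cases ha : spin L M τ e.1 = spin L M τ (e.1 + unit e.2) <;>
    simp [he, ha]

open Classical in
theorem esum_closed (L M : ℕ) (p : ℝ) (F : Finset Edge) (hF : F ⊆ edges L M) :
    ∑ η : edges L M → Bool, (if ∀ e ∈ F, extend L M η e = false then esw L M p η else 0) =
      ∑ τ : box L M → Bool, isw L M p (spin L M τ) *
        ∏ e ∈ F, (if spin L M τ e.1 = spin L M τ (e.1 + unit e.2) then 1 - p else 1) := by
  rw [main L M p F hF false]
  refine Finset.sum_congr rfl fun τ _ => ?_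
  have h1 : (∏ e ∈ F, (if spin L M τ e.1 = spin L M τ (e.1 + unit e.2) then 1 - p else 1)) =
      ∏ e ∈ edges L M,
      (if e ∈ F then (if spin L M τ e.1 = spin L M τ (e.1 + unit e.2) then 1 - p else 1)
        else 1) := by
    rw [Finset.prod_ite_mem, Finset.inter_eq_right.2 hF]
  rw [h1]
  unfold isw
  rw [← Finset.prod_mul_distrib]
  refine Finset.prod_congr rfl fun e _ => ?_
  by_cases he : e ∈ F <;> by_cases ha : spin L M τ e.1 = spin L M τ (e.1 + unit e.2) <;>
    simp [he, ha]

end Pool.Agent.H72.DJ
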