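import Pool.Agent.H72.DJ.Geo
import Pool.Agent.H72.DJ.ESum
import Pool.Agent.H72.DJ.Col

/-!
# The boundary clusters touch the box with high probability

PROOF. `ρ = 1 - p (1 + (1-p)^(-6))⁻¹`. If the upper cluster does not meet the box, then the edges
`((L,0,z), 0)`, `1 ≤ z ≤ M` (from the box to the outside, `reach_top`) are closed, so `esum_closed`
with this set `F` of `M` edges, the other end `(L+1,0,z)` has the spin `true`, and `col` with
`b = true` and `S = {(L,0,z)}` bound the sum by `ρ^M ∑_τ isw = ρ^M ∑ esw` (`esum_open` with `F = ∅`).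
The lower cluster: `-M ≤ z ≤ -1`, `b = false`.
-/

set_option autoImplicit false

namespace Pool.Agent.H72.DJ

private lemma esw_nn (L M : ℕ) (p : ℝ) (hp0 : 0 < p) (hp1 : p < 1) (η : edges L M → Bool) :
    0 ≤ esw L M p η := by
  unfold esw
  apply mul_nonneg
  · apply Finset.prod_nonneg
    intro e _
    split_ifs
    · exact hp0.le
    · linarith
  · exact Nat.cast_nonneg _

private lemma out_box (L M : ℕ) (z : ℤ) : ((L : ℤ) + 1, (0 : ℤ), z) ∉ box L M := by
  rw [mem_box]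
  intro h
  have := h.1.2
  simp only at this
  linarith

private lemma in_box (L M : ℕ) (z : ℤ) (h1 : -(M : ℤ) ≤ z) (h2 : z ≤ M) :
    ((L : ℤ), (0 : ℤ), z) ∈ box L M := by
  rw [mem_box]
  refine ⟨⟨?_, ?_⟩, ⟨?_, ?_⟩, ⟨h1, h2⟩⟩
  · show -(L : ℤ) ≤ (L : ℤ)
    have : (0 : ℤ) ≤ L := Int.natCast_nonneg L
    linarith
  · exact le_rfl
  · show -(L : ℤ) ≤ 0
    have : (0 : ℤ) ≤ L := Int.natCast_nonneg L
    linarith
  · show (0 : ℤ) ≤ L
    exact Int.natCast_nonneg L

private lemma add_unit (L : ℕ) (z : ℤ) :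
    (((L : ℤ), (0 : ℤ), z) : Vtx) + unit 0 = ((L : ℤ) + 1, 0, z) := by
  show ((L : ℤ) + 1, (0 : ℤ) + 0, z + 0) = ((L : ℤ) + 1, 0, z)
  rw [add_zero, add_zero]

open Classical in
private noncomputable def ci (L M : ℕ) (p : ℝ) (Z : Finset ℤ) (η : edges L M → Bool) : ℝ :=
  if ∀ z ∈ Z, extend L M η (((L : ℤ), 0, z), 0) = false then esw L M p η else 0

private lemma ci_pos {L M : ℕ} {p : ℝ} {Z : Finset ℤ} {η : edges L M → Bool}
    (h : ∀ z ∈ Z, extend L M η (((L : ℤ), 0, z), 0) = false) : ci L M p Z η = esw L M p η := by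
  unfold ci
  rw [if_pos h]

private lemma ci_neg {L M : ℕ} {p : ℝ} {Z : Finset ℤ} {η : edges L M → Bool}
    (h : ¬ ∀ z ∈ Z, extend L M η (((L : ℤ), 0, z), 0) = false) : ci L M p Z η = 0 := by
  unfold ci
  rw [if_neg h]

private lemma ci_nn {L M : ℕ} {p : ℝ} (hp0 : 0 < p) (hp1 : p < 1) {Z : Finset ℤ}
    {η : edges L M → Bool} : 0 ≤ ci L M p Z η := by
  by_cases h : ∀ z ∈ Z, extend L M η (((L : ℤ), 0, z), 0) = false
  · rw [ci_pos h]; exact esw_nn L M p hp0 hp1 η
  · rw [ci_neg h]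

open Classical in
private lemma bnd (L M : ℕ) (p : ℝ) (hp0 : 0 < p) (hp1 : p < 1) (Z : Finset ℤ) (b : Bool)
    (hZ : ∀ z ∈ Z, -(M : ℤ) ≤ z ∧ z ≤ M ∧ decide (0 < z) = b) :
    ∑ η : edges L M → Bool, ci L M p Z η ≤
      (1 - p * (1 + ((1 - p) ^ 6)⁻¹)⁻¹) ^ Z.card * ∑ η : edges L M → Bool, esw L M p η := by
  have hF : Z.image (fun z : ℤ => ((((L : ℤ), (0 : ℤ), z), (0 : Fin 3)) : Edge)) ⊆ edges L M := by
    intro e he
    obtain ⟨z, hz, rfl⟩ := Finset.mem_image.1 he
    rw [mem_edges]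
    exact Or.inl (in_box L M z (hZ z hz).1 (hZ z hz).2.1)
  have hS : Z.image (fun z : ℤ => (((L : ℤ), (0 : ℤ), z) : Vtx)) ⊆ box L M := by
    intro e he
    obtain ⟨z, hz, rfl⟩ := Finset.mem_image.1 he
    exact in_box L M z (hZ z hz).1 (hZ z hz).2.1
  have hinj1 : Set.InjOn (fun z : ℤ => ((((L : ℤ), (0 : ℤ), z), (0 : Fin 3)) : Edge)) (Z : Set ℤ) := by
    intro a _ c _ hac
    simp only [Prod.mk.injEq] at hac
    exact hac.1.2.2
  have hinj2 : Set.InjOn (fun z : ℤ => (((L : ℤ), (0 : ℤ), z) : Vtx)) (Z : Set ℤ) := by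
    intro a _ c _ hac
    simp only [Prod.mk.injEq] at hac
    exact hac.2.2
  have h1 := esum_closed L M p _ hF
  have h2 := col L M p hp0 hp1 _ hS b
  have h3 := esum_open L M p ∅ (Finset.empty_subset _)
  have e3 : ∑ η : edges L M → Bool, esw L M p η = ∑ τ : box L M → Bool, isw L M p (spin L M τ) := by
    have e4 : ∑ η : edges L M → Bool, (if ∀ e ∈ (∅ : Finset Edge), extend L M η e = true
        then esw L M p η else 0) = ∑ η : edges L M → Bool, esw L M p η := by
      apply Finset.sum_congr rfl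
      intro η _
      rw [if_pos]
      intro e he
      exact absurd he (Finset.notMem_empty e)
    rw [← e4, h3, Finset.card_empty, pow_zero, one_mul]
    apply Finset.sum_congr rfl
    intro τ _
    have : agree ∅ (spin L M τ) = 1 := by
      unfold agree
      rw [if_pos]
      intro e he
      exact absurd he (Finset.notMem_empty e)
    rw [this, mul_one]
  have e1 : ∑ η : edges L M → Bool, ci L M p Z η =
      ∑ η : edges L M → Bool, (if ∀ e ∈ Z.image (fun z : ℤ => ((((L : ℤ), (0 : ℤ), z), (0 : Fin 3)) : Edge)),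
        extend L M η e = false then esw L M p η else 0) := by
    apply Finset.sum_congr rfl
    intro η _
    have : (∀ z ∈ Z, extend L M η (((L : ℤ), 0, z), 0) = false) ↔
        (∀ e ∈ Z.image (fun z : ℤ => ((((L : ℤ), (0 : ℤ), z), (0 : Fin 3)) : Edge)),
        extend L M η e = false) := by
      constructor
      · intro h e he
        obtain ⟨z, hz, rfl⟩ := Finset.mem_image.1 he
        exact h z hz
      · intro h z hz
        exact h _ (Finset.mem_image_of_mem _ hz)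
    by_cases hc : ∀ z ∈ Z, extend L M η (((L : ℤ), 0, z), 0) = false
    · rw [ci_pos hc, if_pos (this.1 hc)]
    · rw [ci_neg hc, if_neg (fun hh => hc (this.2 hh))]
  rw [e1, h1, e3]
  rw [Finset.card_image_of_injOn hinj2] at h2
  refine le_trans (le_of_eq ?_) h2
  apply Finset.sum_congr rfl
  intro τ _
  congr 1
  rw [Finset.prod_image hinj1, Finset.prod_image hinj2]
  apply Finset.prod_congr rfl
  intro z hz
  have hsp : spin L M τ ((((L : ℤ), (0 : ℤ), z) : Vtx) + unit 0) = b := by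
    rw [add_unit]
    unfold spin
    rw [dif_neg (out_box L M z)]
    exact (hZ z hz).2.2
  show (if spin L M τ ((L : ℤ), (0 : ℤ), z) = spin L M τ ((((L : ℤ), (0 : ℤ), z) : Vtx) + unit 0)
    then 1 - p else 1) = _
  rw [hsp]

private lemma rho_bd (p : ℝ) (hp0 : 0 < p) (hp1 : p < 1) :
    0 ≤ 1 - p * (1 + ((1 - p) ^ 6)⁻¹)⁻¹ ∧ 1 - p * (1 + ((1 - p) ^ 6)⁻¹)⁻¹ < 1 := by
  have h1 : 0 < ((1 - p) ^ 6)⁻¹ := inv_pos.2 (pow_pos (by linarith) 6)
  have h2 : 0 < (1 + ((1 - p) ^ 6)⁻¹)⁻¹ := inv_pos.2 (by linarith)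
  have h3 : (1 + ((1 - p) ^ 6)⁻¹)⁻¹ ≤ 1 := inv_le_one_of_one_le₀ (by linarith)
  have h4 : 0 < p * (1 + ((1 - p) ^ 6)⁻¹)⁻¹ := mul_pos hp0 h2
  have h5 : p * (1 + ((1 - p) ^ 6)⁻¹)⁻¹ ≤ 1 := by
    calc p * (1 + ((1 - p) ^ 6)⁻¹)⁻¹ ≤ 1 * 1 := mul_le_mul hp1.le h3 h2.le zero_le_one
      _ = 1 := one_mul 1
  constructor <;> linarith

private lemma adj_of {L M : ℕ} (η : edges L M → Bool) (z : ℤ)
    (h : extend L M η (((L : ℤ), 0, z), 0) = true) :
    (openGraph (extend L M η)).Reachable ((L : ℤ), 0, z) ((L : ℤ) + 1, 0, z) := by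
  apply SimpleGraph.Adj.reachable
  refine ⟨0, Or.inl ⟨(add_unit L z).symm, h⟩⟩

open Classical in
theorem est (p : ℝ) (hp0 : 0 < p) (hp1 : p < 1) : ∃ ρ : ℝ, 0 ≤ ρ ∧ ρ < 1 ∧ ∀ L M : ℕ,
    ∑ η : edges L M → Bool,
      (if ¬ touchTop L M (extend L M η) ∨ ¬ touchBot L M (extend L M η)
        then esw L M p η else 0) ≤
      2 * ρ ^ M * ∑ η : edges L M → Bool, esw L M p η := by
  refine ⟨1 - p * (1 + ((1 - p) ^ 6)⁻¹)⁻¹, (rho_bd p hp0 hp1).1, (rho_bd p hp0 hp1).2, ?_⟩
  intro L M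
  have hT := bnd L M p hp0 hp1 (Finset.Icc (1 : ℤ) M) true (by
    intro z hz
    rw [Finset.mem_Icc] at hz
    have hM : (0 : ℤ) ≤ M := Int.natCast_nonneg M
    exact ⟨by linarith [hz.1], hz.2, decide_eq_true (by linarith [hz.1])⟩)
  have hB := bnd L M p hp0 hp1 (Finset.Icc (-(M : ℤ)) (-1)) false (by
    intro z hz
    rw [Finset.mem_Icc] at hz
    have hM : (0 : ℤ) ≤ M := Int.natCast_nonneg M
    exact ⟨hz.1, by linarith [hz.2], decide_eq_false (by linarith [hz.2])⟩)
  have cT : (Finset.Icc (1 : ℤ) M).card = M := by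
    rw [Int.card_Icc]; omega
  have cB : (Finset.Icc (-(M : ℤ)) (-1)).card = M := by
    rw [Int.card_Icc]; omega
  rw [cT] at hT
  rw [cB] at hB
  have key : ∀ η : edges L M → Bool,
      (if ¬ touchTop L M (extend L M η) ∨ ¬ touchBot L M (extend L M η)
        then esw L M p η else 0) ≤
      ci L M p (Finset.Icc (1 : ℤ) M) η + ci L M p (Finset.Icc (-(M : ℤ)) (-1)) η := by
    intro η
    have hn := esw_nn L M p hp0 hp1 η
    have nn1 : 0 ≤ ci L M p (Finset.Icc (1 : ℤ) M) η := ci_nn hp0 hp1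
    have nn2 : 0 ≤ ci L M p (Finset.Icc (-(M : ℤ)) (-1)) η := ci_nn hp0 hp1
    by_cases hc : ¬ touchTop L M (extend L M η) ∨ ¬ touchBot L M (extend L M η)
    · rw [if_pos hc]
      rcases hc with hc | hc
      · have : ∀ z ∈ Finset.Icc (1 : ℤ) M, extend L M η (((L : ℤ), 0, z), 0) = false := by
          intro z hz
          rw [Finset.mem_Icc] at hz
          by_contra hne
          have hM : (0 : ℤ) ≤ M := Int.natCast_nonneg M
          apply hc
          refine ⟨((L : ℤ), 0, z), in_box L M z (by linarith [hz.1]) hz.2, ?_⟩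
          refine (adj_of η z (by simpa using hne)).trans ?_
          exact reach_top η (out_box L M z) (show (0 : ℤ) < z by linarith [hz.1])
        rw [ci_pos this]
        linarith
      · have : ∀ z ∈ Finset.Icc (-(M : ℤ)) (-1), extend L M η (((L : ℤ), 0, z), 0) = false := by
          intro z hz
          rw [Finset.mem_Icc] at hz
          by_contra hne
          have hM : (0 : ℤ) ≤ M := Int.natCast_nonneg M
          apply hc
          refine ⟨((L : ℤ), 0, z), in_box L M z hz.1 (by linarith [hz.2]), ?_⟩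
          refine (adj_of η z (by simpa using hne)).trans ?_
          exact reach_bot η (out_box L M z) (show z ≤ (0 : ℤ) by linarith [hz.2])
        rw [ci_pos this]
        linarith
    · rw [if_neg hc]
      linarith
  refine le_trans (Finset.sum_le_sum (fun η _ => key η)) ?_
  rw [Finset.sum_add_distrib]
  refine le_trans (add_le_add hT hB) (le_of_eq ?_)
  ring

end Pool.Agent.H72.DJ
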