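import Pool.Agent.H72.DJ.Cnt
import Pool.Agent.H72.DJ.Est

/-!
# Comparison with the Ising model

PROOF. Let `t = (2 or 1)(2 or 1)` as in `clusters_compat`. On `I` the weight is `esw · t`, off `I`
we have `esw = 0`; so `phiBar` gives to `{ω | ∀ e ∈ F, ω e = true}` the mass
`(∑ [open on F] esw t) / ∑ esw t`. With `Z = ∑ esw` and `est`, `0 ≤ ∑ [..] esw (4 - t) ≤ 3 · 2 ρ^M Z`,
so the quotient tends to `(∑ [open on F] esw) / Z = p^|F| Esp (agree F)` (`esum_open` for `F` and
for `∅`), with error at most `C ρ^M`. `F ⊆ edges L M` for `M ≥ M₀`.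
-/

set_option autoImplicit false

open MeasureTheory Filter Topology

namespace Pool.Agent.H72.DJ

open Classical in
private noncomputable def tt (L M : ℕ) (η : edges L M → Bool) : ℝ :=
  (if touchTop L M (extend L M η) then 2 else 1) *
    (if touchBot L M (extend L M η) then 2 else 1)

private theorem tt_one_le (L M : ℕ) (η : edges L M → Bool) : 1 ≤ tt L M η := by
  unfold tt
  split_ifs <;> norm_num

private theorem tt_le (L M : ℕ) (η : edges L M → Bool) : tt L M η ≤ 4 := by
  unfold tt
  split_ifs <;> norm_num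

open Classical in
private theorem four_sub (L M : ℕ) (η : edges L M → Bool) :
    4 - tt L M η ≤ 3 * (if ¬ touchTop L M (extend L M η) ∨ ¬ touchBot L M (extend L M η)
      then 1 else 0) := by
  unfold tt
  split_ifs <;> first | (exfalso; tauto) | norm_num

private theorem prod_nonneg' {p : ℝ} (hp0 : 0 < p) (hp1 : p < 1) (L M : ℕ) (ω : Conf) :
    0 ≤ ∏ e ∈ edges L M, (if ω e = true then p else 1 - p) :=
  Finset.prod_nonneg fun e _ => by split_ifs <;> linarith

private theorem esw_nonneg {p : ℝ} (hp0 : 0 < p) (hp1 : p < 1) (L M : ℕ)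
    (η : edges L M → Bool) : 0 ≤ esw L M p η :=
  mul_nonneg (prod_nonneg' hp0 hp1 L M _) (by positivity)

open Classical in
private theorem weight_eq (L M : ℕ) (p : ℝ) (η : edges L M → Bool) :
    (if extend L M η ∈ interfaceEvent L M then weight L M p 2 (extend L M η) else 0) =
      esw L M p η * tt L M η := by
  by_cases h : extend L M η ∈ interfaceEvent L M
  · rw [if_pos h, weight, clusters_compat L M η h, esw, tt]
    ring
  · rw [if_neg h, esw, compat_empty L M η h]
    simp

private theorem ZI_eq (L M : ℕ) (p : ℝ) :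
    ZI L M p 2 = ∑ η : edges L M → Bool, esw L M p η * tt L M η := by
  unfold ZI
  exact Finset.sum_congr rfl fun η _ => weight_eq L M p η

private theorem isw_pos {p : ℝ} (hp1 : p < 1) (L M : ℕ) (σ : Vtx → Bool) : 0 < isw L M p σ :=
  Finset.prod_pos fun e _ => by split_ifs <;> linarith

private theorem Z_eq (L M : ℕ) (p : ℝ) : ∑ η : edges L M → Bool, esw L M p η =
    ∑ τ : box L M → Bool, isw L M p (spin L M τ) := by
  have h := esum_open L M p ∅ (Finset.empty_subset _)
  simpa [agree] using h

private theorem measurable_open (F : Finset Edge) :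
    MeasurableSet {ω : Conf | ∀ e ∈ F, ω e = true} := by
  have h : {ω : Conf | ∀ e ∈ F, ω e = true} = ⋂ e ∈ F, (fun ω : Conf => ω e) ⁻¹' {true} := by
    ext ω
    simp
  rw [h]
  exact Finset.measurableSet_biInter _ fun e _ => (measurable_pi_apply e) (measurableSet_singleton _)

open Classical in
private theorem mass {p : ℝ} (hp0 : 0 < p) (hp1 : p < 1) (L M : ℕ) (F : Finset Edge) :
    (phiBar L M p 2).real {ω | ∀ e ∈ F, ω e = true} =
      (∑ η : edges L M → Bool, if ∀ e ∈ F, extend L M η e = true
        then esw L M p η * tt L M η else 0) / ∑ η : edges L M → Bool, esw L M p η * tt L M η := by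
  have hZ : 0 ≤ ZI L M p 2 := by
    rw [ZI_eq]
    exact Finset.sum_nonneg fun η _ =>
      mul_nonneg (esw_nonneg hp0 hp1 L M η) (by linarith [tt_one_le L M η])
  have h0 : ∀ η : edges L M → Bool, 0 ≤ (if ∀ e ∈ F, extend L M η e = true
        then esw L M p η * tt L M η / ZI L M p 2 else 0) := fun η => by
    split_ifs
    · exact div_nonneg (mul_nonneg (esw_nonneg hp0 hp1 L M η) (by linarith [tt_one_le L M η])) hZ
    · exact le_rfl
  have h1 : phiBar L M p 2 {ω | ∀ e ∈ F, ω e = true} =
      ∑ η : edges L M → Bool, ENNReal.ofReal (if ∀ e ∈ F, extend L M η e = true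
        then esw L M p η * tt L M η / ZI L M p 2 else 0) := by
    rw [phiBar, Measure.finsetSum_apply]
    refine Finset.sum_congr rfl fun η _ => ?_
    rw [Measure.smul_apply, Measure.dirac_apply' _ (measurable_open F), smul_eq_mul]
    have h2 : (if extend L M η ∈ interfaceEvent L M
        then weight L M p 2 (extend L M η) / ZI L M p 2 else 0) =
        esw L M p η * tt L M η / ZI L M p 2 := by
      rw [← weight_eq]
      split_ifs <;> simp
    rw [h2]
    by_cases h : ∀ e ∈ F, extend L M η e = true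
    · rw [if_pos h, Set.indicator_of_mem (by exact h)]
      simp
    · rw [if_neg h, Set.indicator_of_notMem (by exact h)]
      simp
  rw [Measure.real, h1, ← ENNReal.ofReal_sum_of_nonneg (fun η _ => h0 η),
    ENNReal.toReal_ofReal (Finset.sum_nonneg fun η _ => h0 η), ← ZI_eq, Finset.sum_div]
  refine Finset.sum_congr rfl fun η _ => ?_
  split_ifs <;> simp

private theorem edges_mono {L M M' : ℕ} (h : M ≤ M') : edges L M ⊆ edges L M' := by
  intro e he
  rw [mem_edges, mem_box, mem_box] at he ⊢
  have : (M : ℤ) ≤ M' := by exact_mod_cast h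
  rcases he with h | h
  · left
    refine ⟨h.1, h.2.1, ?_, ?_⟩ <;> linarith [h.2.2.1, h.2.2.2]
  · right
    refine ⟨h.1, h.2.1, ?_, ?_⟩ <;> linarith [h.2.2.1, h.2.2.2]

theorem cmp (p : ℝ) (hp0 : 0 < p) (hp1 : p < 1) (L M₀ : ℕ) (F : Finset Edge)
    (hF : F ⊆ edges L M₀) :
    Tendsto (fun M => (phiBar L M p 2).real {ω | ∀ e ∈ F, ω e = true} -
      p ^ F.card * Esp L M p (agree F)) atTop (𝓝 0) := by
  classical
  obtain ⟨ρ, hρ0, hρ1, hest⟩ := est p hp0 hp1
  have hlim : Tendsto (fun M : ℕ => 6 * ρ ^ M) atTop (𝓝 0) := by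
    simpa using (tendsto_pow_atTop_nhds_zero_of_lt_one hρ0 hρ1).const_mul 6
  refine squeeze_zero_norm' ?_ hlim
  filter_upwards [eventually_ge_atTop M₀] with M hM
  have hF' : F ⊆ edges L M := hF.trans (edges_mono hM)
  set Z : ℝ := ∑ η : edges L M → Bool, esw L M p η with hZ
  set E : ℝ := ∑ η : edges L M → Bool,
    (if ∀ e ∈ F, extend L M η e = true then esw L M p η else 0) with hE
  set N : ℝ := ∑ η : edges L M → Bool, (if ∀ e ∈ F, extend L M η e = true
        then esw L M p η * tt L M η else 0) with hN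
  set W : ℝ := ∑ η : edges L M → Bool, esw L M p η * tt L M η with hW
  have hZpos : 0 < Z := by
    rw [hZ, Z_eq]
    exact Finset.sum_pos (fun τ _ => isw_pos hp1 L M _) Finset.univ_nonempty
  have hq : p ^ F.card * Esp L M p (agree F) = E / Z := by
    rw [hE, hZ, esum_open L M p F hF', Z_eq, Esp, mul_div_assoc]
  have hmass := mass hp0 hp1 L M F
  rw [← hN, ← hW] at hmass
  rw [hmass, hq]
  have hes : ∀ η, 0 ≤ esw L M p η := esw_nonneg hp0 hp1 L M
  have hE0 : 0 ≤ E := Finset.sum_nonneg fun η _ => by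
    split_ifs
    · exact hes η
    · exact le_rfl
  have hEZ : E ≤ Z := Finset.sum_le_sum fun η _ => by
    split_ifs
    · exact le_rfl
    · exact hes η
  have hWZ : Z ≤ W := Finset.sum_le_sum fun η _ => by
    exact le_mul_of_one_le_right (hes η) (tt_one_le L M η)
  -- the defects
  have hD1 : 4 * Z - W ≤ 6 * ρ ^ M * Z := by
    have h1 : 4 * Z - W = ∑ η : edges L M → Bool, esw L M p η * (4 - tt L M η) := by
      rw [hZ, hW, Finset.mul_sum, ← Finset.sum_sub_distrib]
      exact Finset.sum_congr rfl fun η _ => by ring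
    have h2 : ∑ η : edges L M → Bool, esw L M p η * (4 - tt L M η) ≤
        3 * ∑ η : edges L M → Bool,
          (if ¬ touchTop L M (extend L M η) ∨ ¬ touchBot L M (extend L M η)
            then esw L M p η else 0) := by
      rw [Finset.mul_sum]
      refine Finset.sum_le_sum fun η _ => ?_
      have h3 := mul_le_mul_of_nonneg_left (four_sub L M η) (hes η)
      refine h3.trans (le_of_eq ?_)
      split_ifs <;> ring
    have h4 := hest L M
    rw [← hZ] at h4
    rw [h1]
    calc _ ≤ _ := h2
      _ ≤ 3 * (2 * ρ ^ M * Z) := by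
        refine mul_le_mul_of_nonneg_left ?_ (by norm_num)
        exact h4
      _ = _ := by ring
  have hD2 : 0 ≤ 4 * E - N := by
    have h1 : 4 * E - N = ∑ η : edges L M → Bool,
        (if ∀ e ∈ F, extend L M η e = true then esw L M p η * (4 - tt L M η) else 0) := by
      rw [hE, hN, Finset.mul_sum, ← Finset.sum_sub_distrib]
      exact Finset.sum_congr rfl fun η _ => by split_ifs <;> ring
    rw [h1]
    refine Finset.sum_nonneg fun η _ => ?_
    split_ifs
    · exact mul_nonneg (hes η) (by linarith [tt_le L M η])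
    · exact le_rfl
  have hD3 : 4 * E - N ≤ 4 * Z - W := by
    have h1 : 4 * E - N = ∑ η : edges L M → Bool,
        (if ∀ e ∈ F, extend L M η e = true then esw L M p η * (4 - tt L M η) else 0) := by
      rw [hE, hN, Finset.mul_sum, ← Finset.sum_sub_distrib]
      exact Finset.sum_congr rfl fun η _ => by split_ifs <;> ring
    have h2 : 4 * Z - W = ∑ η : edges L M → Bool, esw L M p η * (4 - tt L M η) := by
      rw [hZ, hW, Finset.mul_sum, ← Finset.sum_sub_distrib]
      exact Finset.sum_congr rfl fun η _ => by ring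
    rw [h1, h2]
    refine Finset.sum_le_sum fun η _ => ?_
    split_ifs
    · exact le_rfl
    · exact mul_nonneg (hes η) (by linarith [tt_le L M η])
  have hWpos : 0 < W := hZpos.trans_le hWZ
  clear_value Z E N W
  have hdiff : N / W - E / Z = (E / Z * (4 * Z - W) - (4 * E - N)) / W := by
    field_simp
    ring
  rw [hdiff, Real.norm_eq_abs, abs_div, abs_of_pos hWpos, div_le_iff₀ hWpos]
  have hr0 : 0 ≤ E / Z := div_nonneg hE0 hZpos.le
  have hr1 : E / Z ≤ 1 := (div_le_one hZpos).2 hEZ
  have hD0 : 0 ≤ 4 * Z - W := hD2.trans hD3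
  have h5 : |E / Z * (4 * Z - W) - (4 * E - N)| ≤ 4 * Z - W := by
    rw [abs_le]
    constructor
    · have h6 := mul_nonneg hr0 hD0
      linarith
    · have h6 := mul_le_mul_of_nonneg_right hr1 hD0
      linarith
  calc _ ≤ 4 * Z - W := h5
    _ ≤ 6 * ρ ^ M * Z := hD1
    _ ≤ 6 * ρ ^ M * W :=
      mul_le_mul_of_nonneg_left hWZ (mul_nonneg (by norm_num) (pow_nonneg hρ0 M))

end Pool.Agent.H72.DJ
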