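import Pool.Agent.H72.DJ.Geo

/-!
# Counting the compatible spin configurations

PROOFS. Let `ω = extend L M η`, `G = openGraph ω`, `σ = spin L M τ`. If `τ ∈ compat L M ω`, then `σ`
is constant along all open edges: for edges of `edges L M` by definition, for the others both ends
are outside the box and `ω = dob`, so both have the same sign `bc`. Hence `σ` is constant on the
components of `G`, `true` on the component `T` of `(0,0,M+1)` and `false` on the component `B` of
`(0,0,-(M+1))`. `compat_empty`: if the event `I` fails, then `T = B` (`interface_iff`), impossible.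
`clusters_compat`: on `I` we have `T ≠ B`. Let `C` be the finite set of the components which meet
the box, `C' = C \ {T, B}`; `τ ↦ (c ↦ value of σ on c)` is a bijection from `compat L M ω` onto
`C' → Bool` (inverse: `τ x = true` if `x` is in `T`, `false` if in `B`, `g c` if in `c`; a vertex
outside the box is in `T` or `B` by `reach_top`, `reach_bot`). So `compat` has `2 ^ |C'|` elements,
and `|C| = |C'| + [T ∈ C] + [B ∈ C]`, `T ∈ C ↔ touchTop`, `B ∈ C ↔ touchBot`.
-/

set_option autoImplicit false

namespace Pool.Agent.H72.DJ

private theorem spin_edge {L M : ℕ} {η : edges L M → Bool} {τ : box L M → Bool}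
    (hτ : τ ∈ compat L M (extend L M η)) (x : Vtx) (i : Fin 3)
    (ho : extend L M η (x, i) = true) : spin L M τ x = spin L M τ (x + unit i) := by
  classical
  by_cases he : ((x, i) : Edge) ∈ edges L M
  · unfold compat at hτ
    exact (Finset.mem_filter.1 hτ).2 (x, i) he ho
  · have h1 : x ∉ box L M := fun h => he (mem_edges.2 (Or.inl h))
    have h2 : x + unit i ∉ box L M := fun h => he (mem_edges.2 (Or.inr h))
    have h3 : dob (x, i) = true := by
      unfold extend at ho
      rwa [dif_neg he] at ho
    unfold spin
    rw [dif_neg h1, dif_neg h2]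
    unfold bc
    have h4 : ¬ (i = 2 ∧ x.2.2 = 0) := by
      unfold dob at h3
      rw [Bool.not_eq_true', decide_eq_false_iff_not] at h3
      exact h3
    fin_cases i
    · simp [unit]
    · simp [unit]
    · have h5 : x.2.2 ≠ 0 := fun h => h4 ⟨rfl, h⟩
      have h6 : (x + unit 2).2.2 = x.2.2 + 1 := by simp [unit]
      have h7 : (0 < x.2.2) ↔ (0 < (x + unit 2).2.2) := by
        rw [h6]
        omega
      exact decide_eq_decide.2 h7

private theorem spin_adj {L M : ℕ} {η : edges L M → Bool} {τ : box L M → Bool}
    (hτ : τ ∈ compat L M (extend L M η)) {x y : Vtx}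
    (h : (openGraph (extend L M η)).Adj x y) : spin L M τ x = spin L M τ y := by
  obtain ⟨i, ⟨h1, h2⟩ | ⟨h1, h2⟩⟩ := h
  · rw [h1]
    exact spin_edge hτ x i h2
  · rw [h1]
    exact (spin_edge hτ y i h2).symm

private theorem spin_reach {L M : ℕ} {η : edges L M → Bool} {τ : box L M → Bool}
    (hτ : τ ∈ compat L M (extend L M η)) {x y : Vtx}
    (h : (openGraph (extend L M η)).Reachable x y) : spin L M τ x = spin L M τ y := by
  obtain ⟨w⟩ := h
  induction w with
  | nil => rfl
  | cons ha _ ih => exact (spin_adj hτ ha).trans ih

private theorem top_out (L M : ℕ) : ((0, 0, (M : ℤ) + 1) : Vtx) ∉ box L M := by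
  rw [mem_box]
  rintro ⟨-, -, -, h⟩
  simp only at h
  omega

private theorem bot_out (L M : ℕ) : ((0, 0, -((M : ℤ) + 1)) : Vtx) ∉ box L M := by
  rw [mem_box]
  rintro ⟨-, -, h, -⟩
  simp only at h
  omega

private theorem spin_top (L M : ℕ) (τ : box L M → Bool) :
    spin L M τ (0, 0, (M : ℤ) + 1) = true := by
  unfold spin
  rw [dif_neg (top_out L M)]
  unfold bc
  refine decide_eq_true ?_
  simp only
  omega

private theorem spin_bot (L M : ℕ) (τ : box L M → Bool) :
    spin L M τ (0, 0, -((M : ℤ) + 1)) = false := by
  unfold spin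
  rw [dif_neg (bot_out L M)]
  unfold bc
  refine decide_eq_false ?_
  simp only
  omega

/-- the spin configuration which is `true` on the upper boundary cluster and on the clusters of
`S` -/
private noncomputable def sp (L M : ℕ) (ω : Conf)
    (S : Finset (openGraph ω).ConnectedComponent) : box L M → Bool := by
  classical
  exact fun x => decide
    ((openGraph ω).connectedComponentMk x.1 =
      (openGraph ω).connectedComponentMk (0, 0, (M : ℤ) + 1) ∨
      (openGraph ω).connectedComponentMk x.1 ∈ S)

private theorem spin_sp {L M : ℕ} {η : edges L M → Bool}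
    (h : extend L M η ∈ interfaceEvent L M)
    (S : Finset (openGraph (extend L M η)).ConnectedComponent)
    (hS : (openGraph (extend L M η)).connectedComponentMk (0, 0, -((M : ℤ) + 1)) ∉ S)
    (x : Vtx) :
    spin L M (sp L M (extend L M η) S) x = true ↔
      ((openGraph (extend L M η)).connectedComponentMk x =
        (openGraph (extend L M η)).connectedComponentMk (0, 0, (M : ℤ) + 1) ∨
        (openGraph (extend L M η)).connectedComponentMk x ∈ S) := by
  classical
  have hTB := (interface_iff η).1 h
  unfold spin
  by_cases hx : x ∈ box L M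
  · rw [dif_pos hx]
    unfold sp
    simp only [decide_eq_true_eq]
  · rw [dif_neg hx]
    unfold bc
    by_cases h0 : 0 < x.2.2
    · have h1 := SimpleGraph.ConnectedComponent.eq.2 (reach_top η hx h0)
      simp only [h0, decide_true, true_iff]
      exact Or.inl h1
    · have h1 := SimpleGraph.ConnectedComponent.eq.2 (reach_bot η hx (not_lt.1 h0))
      simp only [h0, decide_false, Bool.false_eq_true, false_iff]
      rw [h1]
      rintro (h2 | h2)
      · exact hTB (SimpleGraph.ConnectedComponent.eq.1 h2).symm
      · exact hS h2

open Classical in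
theorem clusters_compat (L M : ℕ) (η : edges L M → Bool)
    (h : extend L M η ∈ interfaceEvent L M) :
    (2 : ℝ) ^ clusters (box L M) (extend L M η) =
      ((compat L M (extend L M η)).card : ℝ) *
        ((if touchTop L M (extend L M η) then 2 else 1) *
          (if touchBot L M (extend L M η) then 2 else 1)) := by
  have hTB := (interface_iff η).1 h
  set G := openGraph (extend L M η) with hG
  set T := G.connectedComponentMk (0, 0, (M : ℤ) + 1) with hT
  set B := G.connectedComponentMk (0, 0, -((M : ℤ) + 1)) with hB
  have hne : T ≠ B := fun h1 => hTB (SimpleGraph.ConnectedComponent.eq.1 h1)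
  set C : Finset G.ConnectedComponent := (box L M).image G.connectedComponentMk with hC
  have hclu : clusters (box L M) (extend L M η) = C.card := by
    unfold clusters
    rw [← Set.ncard_coe_finset C, hC, Finset.coe_image]
  have htop : touchTop L M (extend L M η) ↔ T ∈ C := by
    unfold touchTop
    rw [hC, Finset.mem_image]
    constructor
    · rintro ⟨x, hx, hr⟩
      exact ⟨x, hx, SimpleGraph.ConnectedComponent.eq.2 hr⟩
    · rintro ⟨x, hx, hr⟩
      exact ⟨x, hx, SimpleGraph.ConnectedComponent.eq.1 hr⟩
  have hbot : touchBot L M (extend L M η) ↔ B ∈ C := by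
    unfold touchBot
    rw [hC, Finset.mem_image]
    constructor
    · rintro ⟨x, hx, hr⟩
      exact ⟨x, hx, SimpleGraph.ConnectedComponent.eq.2 hr⟩
    · rintro ⟨x, hx, hr⟩
      exact ⟨x, hx, SimpleGraph.ConnectedComponent.eq.1 hr⟩
  set C' : Finset G.ConnectedComponent := (C.erase T).erase B with hC'
  have hmem : ∀ c, c ∈ C' ↔ c ≠ B ∧ c ≠ T ∧ c ∈ C := by
    intro c
    rw [hC', Finset.mem_erase, Finset.mem_erase]
  have hcard : (compat L M (extend L M η)).card = 2 ^ C'.card := by
    have himg : compat L M (extend L M η) =
        C'.powerset.image (sp L M (extend L M η)) := by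
      ext τ
      rw [Finset.mem_image]
      constructor
      · intro hτ
        refine ⟨C'.filter fun c => ∃ x : box L M, G.connectedComponentMk x.1 = c ∧ τ x = true,
          Finset.mem_powerset.2 (Finset.filter_subset _ _), ?_⟩
        funext x
        have hx : spin L M τ x.1 = τ x := by
          unfold spin
          rw [dif_pos x.2]
        rw [Bool.eq_iff_iff]
        unfold sp
        simp only [decide_eq_true_eq]
        rw [Finset.mem_filter]
        constructor
        · rintro (h1 | ⟨-, y, hy, hy2⟩)
          · rw [← hx, spin_reach hτ (SimpleGraph.ConnectedComponent.eq.1 h1)]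
            exact spin_top L M τ
          · have hy3 : spin L M τ y.1 = τ y := by
              unfold spin
              rw [dif_pos y.2]
            rw [← hx, ← spin_reach hτ (SimpleGraph.ConnectedComponent.eq.1 hy), hy3]
            exact hy2
        · intro h1
          by_cases h2 : G.connectedComponentMk x.1 = T
          · exact Or.inl h2
          · refine Or.inr ⟨(hmem _).2 ⟨?_, h2, Finset.mem_image_of_mem _ x.2⟩, x, rfl, h1⟩
            intro h3
            have h4 := spin_reach hτ (SimpleGraph.ConnectedComponent.eq.1 h3)
            rw [spin_bot, hx, h1] at h4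
            exact Bool.noConfusion h4
      · rintro ⟨S, hS, rfl⟩
        rw [Finset.mem_powerset] at hS
        have hBS : B ∉ S := fun h1 => ((hmem _).1 (hS h1)).1 rfl
        unfold compat
        rw [Finset.mem_filter]
        refine ⟨Finset.mem_univ _, ?_⟩
        intro e _ he
        rw [Bool.eq_iff_iff, spin_sp h S hBS, spin_sp h S hBS]
        have hadj : G.Adj e.1 (e.1 + unit e.2) := ⟨e.2, Or.inl ⟨rfl, he⟩⟩
        rw [SimpleGraph.ConnectedComponent.eq.2 hadj.reachable]
    rw [himg, Finset.card_image_of_injOn, Finset.card_powerset]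
    intro S hS S' hS' hSS
    rw [Finset.mem_coe, Finset.mem_powerset] at hS hS'
    have key : ∀ S₁ S₂ : Finset G.ConnectedComponent, S₁ ⊆ C' →
        sp L M (extend L M η) S₁ = sp L M (extend L M η) S₂ → S₁ ⊆ S₂ := by
      intro S₁ S₂ h1 h2 c hc
      obtain ⟨h3, h4, h5⟩ := (hmem _).1 (h1 hc)
      obtain ⟨x, hx, rfl⟩ := Finset.mem_image.1 h5
      have h6 := congrFun h2 ⟨x, hx⟩
      rw [Bool.eq_iff_iff] at h6
      unfold sp at h6
      simp only [decide_eq_true_eq] at h6
      rcases h6.1 (Or.inr hc) with h7 | h7
      · exact absurd h7 h4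
      · exact h7
    exact Finset.Subset.antisymm (key S S' hS hSS) (key S' S hS' hSS.symm)
  rw [hclu, hcard]
  push_cast
  by_cases h1 : T ∈ C
  · have e1 : (C.erase T).card + 1 = C.card := Finset.card_erase_add_one h1
    by_cases h2 : B ∈ C
    · have h3 : B ∈ C.erase T := Finset.mem_erase.2 ⟨hne.symm, h2⟩
      have e2 : ((C.erase T).erase B).card + 1 = (C.erase T).card := Finset.card_erase_add_one h3
      rw [if_pos (htop.2 h1), if_pos (hbot.2 h2), ← e1, ← e2, pow_succ, pow_succ]
      ring
    · have h3 : B ∉ C.erase T := fun h4 => h2 (Finset.mem_of_mem_erase h4)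
      have e2 : C' = C.erase T := Finset.erase_eq_of_notMem h3
      rw [if_pos (htop.2 h1), if_neg (fun h4 => h2 (hbot.1 h4)), ← e1, e2, pow_succ]
      ring
  · have e1 : C.erase T = C := Finset.erase_eq_of_notMem h1
    by_cases h2 : B ∈ C
    · have e2 : (C.erase B).card + 1 = C.card := Finset.card_erase_add_one h2
      rw [if_neg (fun h4 => h1 (htop.1 h4)), if_pos (hbot.2 h2), hC', e1, ← e2, pow_succ]
      ring
    · have e2 : C' = C := by
        rw [hC', e1]
        exact Finset.erase_eq_of_notMem h2
      rw [if_neg (fun h4 => h1 (htop.1 h4)), if_neg (fun h4 => h2 (hbot.1 h4)), e2]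
      ring

theorem compat_empty (L M : ℕ) (η : edges L M → Bool)
    (h : extend L M η ∉ interfaceEvent L M) : compat L M (extend L M η) = ∅ := by
  rw [Finset.eq_empty_iff_forall_notMem]
  intro τ hτ
  have h1 : (openGraph (extend L M η)).Reachable (0, 0, (M : ℤ) + 1) (0, 0, -((M : ℤ) + 1)) := by
    by_contra h2
    exact h ((interface_iff η).2 h2)
  have h3 := spin_reach hτ h1
  rw [spin_top, spin_bot] at h3
  exact Bool.noConfusion h3

end Pool.Agent.H72.DJ
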