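import Pool.Agent.H72.DJ.Rep

/-!
# Exchange and convergence

PROOFS. `exch`: for `m ∈ mono S` with `m ∘ swap = -m` we get `pair x y m = - pair y x m`, so both are
`0`. Every function is a linear combination of elements of `mono S` (`mono_span`); antisymmetrize
`f = ∑ c_i m_i` with `mono_swap`: for antisymmetric `f` we have `f = ∑_{m_i antisymmetric} c_i m_i`,
so `pair x y f = 0` for all antisymmetric `f`, in particular for `f (ζ, ζ') = [ζ = η] - [ζ' = η]`,
where `pair x y f = x η - y η` because `x`, `y` are probability vectors.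
`conv`: the vectors lie in the compact cube `[0,1]^(S → St)`; if `y`, `z` are cluster points, take
ultrafilters `u`, `v ≤ atTop` with limits `y`, `z`; `0 ≤ pair (x L) (x L') m` for `L₀ ≤ L ≤ L'`, first
`L' → ∞` along `v`, then `L → ∞` along `u`: `0 ≤ pair y z m`, and `0 ≤ pair z y m` in the same way,
so `y = z` by `exch` (limits of probability vectors are probability vectors).
`conv2`: let `u = Filter.hyperfilter ℕ`, `x' L = lim_u x L M` (compactness); apply `conv` to `x'`;
`c L = ∑ η, x' L η * g η` for `L ≥ L₀`.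
-/

set_option autoImplicit false

open Filter Topology

namespace Pool.Agent.H72.DJ

variable {S : Type} [Fintype S] [DecidableEq S]

private theorem pair_swap (x y : (S → St) → ℝ) (m : (S → St) × (S → St) → ℝ) :
    pair y x m = pair x y fun z => m (z.2, z.1) := by
  unfold pair
  rw [Finset.sum_comm]
  refine Finset.sum_congr rfl fun ζ _ => Finset.sum_congr rfl fun ζ' _ => ?_
  ring

private theorem pair_add (x y : (S → St) → ℝ) (f g : (S → St) × (S → St) → ℝ) :
    pair x y (fun z => f z + g z) = pair x y f + pair x y g := by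
  unfold pair
  rw [← Finset.sum_add_distrib]
  refine Finset.sum_congr rfl fun ζ _ => ?_
  rw [← Finset.sum_add_distrib]
  refine Finset.sum_congr rfl fun ζ' _ => ?_
  ring

private theorem pair_smul (x y : (S → St) → ℝ) (c : ℝ) (f : (S → St) × (S → St) → ℝ) :
    pair x y (fun z => c * f z) = c * pair x y f := by
  unfold pair
  rw [Finset.mul_sum]
  refine Finset.sum_congr rfl fun ζ _ => ?_
  rw [Finset.mul_sum]
  refine Finset.sum_congr rfl fun ζ' _ => ?_
  ring

private theorem pair_left (x y : (S → St) → ℝ) (hy : IsProb y) (f : (S → St) → ℝ) :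
    pair x y (fun z => f z.1) = ∑ ζ, x ζ * f ζ := by
  unfold pair
  refine Finset.sum_congr rfl fun ζ _ => ?_
  have h : ∀ ζ' : S → St, x ζ * y ζ' * f ζ = y ζ' * (x ζ * f ζ) := fun ζ' => by ring
  rw [Finset.sum_congr rfl fun ζ' _ => h ζ', ← Finset.sum_mul, hy.2, one_mul]

theorem exch (x y : (S → St) → ℝ) (hx : IsProb x) (hy : IsProb y)
    (h1 : ∀ m ∈ mono S, 0 ≤ pair x y m) (h2 : ∀ m ∈ mono S, 0 ≤ pair y x m) : x = y := by
  have key : ∀ f : (S → St) × (S → St) → ℝ, pair x y f = pair x y fun z => f (z.2, z.1) := by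
    intro f
    have hf : f ∈ Submodule.span ℝ ((mono S : Submonoid _) : Set ((S → St) × (S → St) → ℝ)) := by
      rw [mono_span]
      exact Submodule.mem_top
    induction hf using Submodule.span_induction with
    | mem m hm =>
      rcases mono_swap (V := S) hm with h | h
      · have e : (fun z : (S → St) × (S → St) => m (z.2, z.1)) = m := funext h
        rw [e]
      · have e : (fun z : (S → St) × (S → St) => m (z.2, z.1)) = fun z => (-1 : ℝ) * m z := by
          funext z
          rw [h z]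
          ring
        have h3 := h1 m hm
        have h4 := h2 m hm
        rw [pair_swap x y m, e, pair_smul] at h4
        rw [e, pair_smul]
        linarith
    | zero => rfl
    | add f g _ _ hf hg =>
      have e1 : pair x y (f + g) = pair x y f + pair x y g := pair_add x y f g
      have e2 : (pair x y fun z => (f + g) (z.2, z.1)) =
          (pair x y fun z => f (z.2, z.1)) + pair x y fun z => g (z.2, z.1) :=
        pair_add x y (fun z => f (z.2, z.1)) (fun z => g (z.2, z.1))
      rw [e1, e2, hf, hg]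
    | smul c f _ hf =>
      have e1 : pair x y (c • f) = c * pair x y f := pair_smul x y c f
      have e2 : (pair x y fun z => (c • f) (z.2, z.1)) = c * pair x y fun z => f (z.2, z.1) :=
        pair_smul x y c (fun z => f (z.2, z.1))
      rw [e1, e2, hf]
  funext η
  have h := key fun z => if z.1 = η then 1 else 0
  have e1 : (pair x y fun z => if z.1 = η then 1 else 0) = x η := by
    rw [pair_left x y hy fun ζ => if ζ = η then (1 : ℝ) else 0]
    simp
  have e2 : (pair x y fun z : (S → St) × (S → St) => if z.2 = η then 1 else 0) = y η := by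
    have h5 := pair_swap y x fun z : (S → St) × (S → St) => if z.2 = η then (1 : ℝ) else 0
    rw [h5, pair_left y x hx fun ζ => if ζ = η then (1 : ℝ) else 0]
    simp
  rw [e1] at h
  rw [h]
  exact e2

private theorem prob_le (x : (S → St) → ℝ) (hx : IsProb x) (i : S → St) : x i ≤ 1 := by
  rw [← hx.2]
  exact Finset.single_le_sum (f := x) (fun j _ => hx.1 j) (Finset.mem_univ i)

omit [Fintype S] [DecidableEq S] in
private theorem cube_compact :
    IsCompact (Set.univ.pi fun _ : S → St => Set.Icc (0 : ℝ) 1) :=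
  isCompact_univ_pi fun _ => isCompact_Icc

private theorem prob_cube (x : (S → St) → ℝ) (hx : IsProb x) :
    x ∈ Set.univ.pi fun _ : S → St => Set.Icc (0 : ℝ) 1 :=
  fun i _ => ⟨hx.1 i, prob_le x hx i⟩

private theorem prob_lim {ι : Type} {u : Filter ι} [NeBot u] {x : ι → (S → St) → ℝ}
    {y : (S → St) → ℝ} (hx : ∀ᶠ L in u, IsProb (x L)) (hy : Tendsto x u (𝓝 y)) : IsProb y := by
  have h1 : ∀ i, Tendsto (fun L => x L i) u (𝓝 (y i)) := fun i => (tendsto_pi_nhds.1 hy) i
  constructor
  · intro i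
    exact ge_of_tendsto (h1 i) (hx.mono fun L h => h.1 i)
  · have h2 : Tendsto (fun L => ∑ i, x L i) u (𝓝 (∑ i, y i)) :=
      tendsto_finsetSum _ fun i _ => h1 i
    have h3 : Tendsto (fun _ : ι => (1 : ℝ)) u (𝓝 (∑ i, y i)) :=
      h2.congr' (hx.mono fun L h => h.2)
    exact tendsto_nhds_unique h3 tendsto_const_nhds

private theorem pair_lim {ι : Type} {u : Filter ι} {x x' : ι → (S → St) → ℝ}
    {y y' : (S → St) → ℝ} (hy : Tendsto x u (𝓝 y)) (hy' : Tendsto x' u (𝓝 y'))
    (m : (S → St) × (S → St) → ℝ) :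
    Tendsto (fun L => pair (x L) (x' L) m) u (𝓝 (pair y y' m)) := by
  have h1 : ∀ i, Tendsto (fun L => x L i) u (𝓝 (y i)) := fun i => (tendsto_pi_nhds.1 hy) i
  have h2 : ∀ i, Tendsto (fun L => x' L i) u (𝓝 (y' i)) := fun i => (tendsto_pi_nhds.1 hy') i
  unfold pair
  exact tendsto_finsetSum _ fun ζ _ => tendsto_finsetSum _ fun ζ' _ =>
    ((h1 ζ).mul (h2 ζ')).mul_const _

private theorem pair_cluster {x : ℕ → (S → St) → ℝ} {L₀ : ℕ}
    (h : ∀ L L', L₀ ≤ L → L ≤ L' → ∀ m ∈ mono S, 0 ≤ pair (x L) (x L') m)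
    {u v : Filter ℕ} [NeBot u] [NeBot v] (hu : u ≤ atTop) (hv : v ≤ atTop)
    {y z : (S → St) → ℝ} (hy : Tendsto x u (𝓝 y)) (hz : Tendsto x v (𝓝 z)) :
    ∀ m ∈ mono S, 0 ≤ pair y z m := by
  intro m hm
  have h1 : ∀ L, L₀ ≤ L → 0 ≤ pair (x L) z m := by
    intro L hL
    have h2 : Tendsto (fun L' => pair (x L) (x L') m) v (𝓝 (pair (x L) z m)) :=
      pair_lim tendsto_const_nhds hz m
    exact ge_of_tendsto h2 (hv ((eventually_ge_atTop L).mono fun L' hL' => h L L' hL hL' m hm))
  have h3 : Tendsto (fun L => pair (x L) z m) u (𝓝 (pair y z m)) :=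
    pair_lim hy tendsto_const_nhds m
  exact ge_of_tendsto h3 (hu ((eventually_ge_atTop L₀).mono fun L hL => h1 L hL))

theorem conv (x : ℕ → (S → St) → ℝ) (hx : ∀ L, IsProb (x L)) (L₀ : ℕ)
    (h : ∀ L L', L₀ ≤ L → L ≤ L' → ∀ m ∈ mono S, 0 ≤ pair (x L) (x L') m) :
    ∃ y, Tendsto x atTop (𝓝 y) := by
  have huniq : ∀ (u v : Ultrafilter ℕ), (u : Filter ℕ) ≤ atTop → (v : Filter ℕ) ≤ atTop →
      ∀ y z : (S → St) → ℝ, Tendsto x u (𝓝 y) → Tendsto x v (𝓝 z) → y = z := by
    intro u v hu hv y z hy hz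
    exact exch y z (prob_lim (Eventually.of_forall hx) hy) (prob_lim (Eventually.of_forall hx) hz)
      (pair_cluster h hu hv hy hz) (pair_cluster h hv hu hz hy)
  have hmem : ∀ L, x L ∈ Set.univ.pi fun _ : S → St => Set.Icc (0 : ℝ) 1 := fun L =>
    prob_cube _ (hx L)
  obtain ⟨y, _, hy⟩ := (cube_compact (S := S)).ultrafilter_le_nhds
    ((hyperfilter ℕ).map x) (by
      rw [le_principal_iff]
      exact Filter.mem_map.2 (Filter.univ_mem' hmem))
  refine ⟨y, (cube_compact (S := S)).tendsto_nhds_of_unique_mapClusterPt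
    (Eventually.of_forall hmem) fun z _ hz => ?_⟩
  obtain ⟨v, hv, hz'⟩ := mapClusterPt_iff_ultrafilter.1 hz
  exact huniq v (hyperfilter ℕ) hv Nat.hyperfilter_le_atTop z y hz' hy

theorem conv2 (x : ℕ → ℕ → (S → St) → ℝ) (hx : ∀ L M, IsProb (x L M)) (L₀ : ℕ)
    (h : ∀ L L', L₀ ≤ L → L ≤ L' → ∀ᶠ M in atTop, ∀ m ∈ mono S, 0 ≤ pair (x L M) (x L' M) m)
    (g : (S → St) → ℝ) (c : ℕ → ℝ)
    (hc : ∀ L, L₀ ≤ L → Tendsto (fun M => ∑ η, x L M η * g η) atTop (𝓝 (c L))) :
    ∃ d, Tendsto c atTop (𝓝 d) := by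
  have hle : ((hyperfilter ℕ : Ultrafilter ℕ) : Filter ℕ) ≤ atTop := Nat.hyperfilter_le_atTop
  have hex : ∀ L, ∃ y : (S → St) → ℝ, Tendsto (x L) (hyperfilter ℕ : Ultrafilter ℕ) (𝓝 y) := by
    intro L
    obtain ⟨y, _, hy⟩ := (cube_compact (S := S)).ultrafilter_le_nhds
      ((hyperfilter ℕ).map (x L)) (by
        rw [le_principal_iff]
        exact Filter.mem_map.2 (Filter.univ_mem' fun M => prob_cube _ (hx L M)))
    exact ⟨y, hy⟩
  choose x' hx' using hex
  obtain ⟨y, hy⟩ := conv x' (fun L => prob_lim (Eventually.of_forall (hx L)) (hx' L)) L₀ (by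
    intro L L' hL hL' m hm
    exact ge_of_tendsto (pair_lim (hx' L) (hx' L') m)
      (hle ((h L L' hL hL').mono fun M hM => hM m hm)))
  have hcl : ∀ (ι : Type) (u : Filter ι) (w : ι → (S → St) → ℝ) (w' : (S → St) → ℝ),
      Tendsto w u (𝓝 w') → Tendsto (fun L => ∑ η, w L η * g η) u (𝓝 (∑ η, w' η * g η)) := by
    intro ι u w w' hw
    exact tendsto_finsetSum _ fun η _ => ((tendsto_pi_nhds.1 hw) η).mul_const _
  refine ⟨∑ η, y η * g η, (hcl _ _ _ _ hy).congr' ?_⟩
  filter_upwards [eventually_ge_atTop L₀] with L hL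
  exact tendsto_nhds_unique (hcl _ _ _ _ (hx' L)) ((hc L hL).mono_left hle)

end Pool.Agent.H72.DJ
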