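import Mathlib

/-!
# Conditioned Dobrushin random-cluster measures on the cubic lattice: definitions

MP_98e456_pr.  `box L M` is the box `Λ_{L,M}`, `edges L M` the set `E_{L,M}`, `dob` the Dobrushin
configuration, `openGraph ω` the graph of the open edges, `interfaceEvent L M` the event
`I_{L,M}`, `phiBar L M p q` the random-cluster measure with boundary condition `dob` conditioned on
this event.  The rest of the file is about the Ising model with `±` boundary condition and about the
duplicated variables.
-/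

open MeasureTheory Filter Topology
open scoped BigOperators ENNReal

namespace Pool.Agent.H72.DJ

/-! ### The model -/

/-- the vertices of the cubic lattice -/
abbrev Vtx : Type := ℤ × ℤ × ℤ

/-- the three unit vectors -/
def unit (i : Fin 3) : Vtx := (![(1, 0, 0), (0, 1, 0), (0, 0, 1)] : Fin 3 → Vtx) i

/-- the edges of the cubic lattice: `(x, i)` stands for the edge joining `x` and `x + unit i` -/
abbrev Edge : Type := Vtx × Fin 3

/-- configurations: the edge `e` is open if `ω e = true` -/
abbrev Conf : Type := Edge → Bool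

/-- the box `Λ_{L,M} = [-L,L]² × [-M,M]` -/
noncomputable def box (L M : ℕ) : Finset Vtx :=
  Finset.Icc (-(L : ℤ)) L ×ˢ Finset.Icc (-(L : ℤ)) L ×ˢ Finset.Icc (-(M : ℤ)) M

/-- the set `E_{L,M}` of the edges with at least one endvertex in the box (see `mem_edges`) -/
noncomputable def edges (L M : ℕ) : Finset Edge :=
  (box L M ×ˢ Finset.univ) ∪
    (box L M ×ˢ Finset.univ).image fun e : Edge => (e.1 - unit e.2, e.2)

/-- two vertices are neighbours -/
def Nbr (x z : Vtx) : Prop := ∃ i, z = x + unit i ∨ x = z + unit i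

/-- `∂⁺Λ` -/
def bdPlus (Λ : Finset Vtx) : Set Vtx := {x | x ∉ Λ ∧ 0 < x.2.2 ∧ ∃ z ∈ Λ, Nbr x z}

/-- `∂⁻Λ` -/
def bdMinus (Λ : Finset Vtx) : Set Vtx := {x | x ∉ Λ ∧ x.2.2 ≤ 0 ∧ ∃ z ∈ Λ, Nbr x z}

/-- the Dobrushin configuration: the vertical edges between the heights `0` and `1` are closed, all
other edges are open -/
def dob : Conf := fun e => !decide (e.2 = 2 ∧ e.1.2.2 = 0)

/-- the graph of the open edges -/
def openGraph (ω : Conf) : SimpleGraph Vtx where
  Adj x y := ∃ i, (y = x + unit i ∧ ω (x, i) = true) ∨ (x = y + unit i ∧ ω (y, i) = true)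
  symm := by
    constructor
    rintro x y ⟨i, h | h⟩
    · exact ⟨i, Or.inr h⟩
    · exact ⟨i, Or.inl h⟩
  loopless := by
    constructor
    rintro x ⟨i, h | h⟩ <;>
    · have h1 := h.1
      fin_cases i <;> simp [unit, Prod.ext_iff] at h1

/-- the number `k(ω)` of the open clusters of `ω` meeting `Λ` -/
noncomputable def clusters (Λ : Finset Vtx) (ω : Conf) : ℕ :=
  ((openGraph ω).connectedComponentMk '' (Λ : Set Vtx)).ncard

/-- the event `I_{L,M}`: no open path joins `∂⁺Λ_{L,M}` and `∂⁻Λ_{L,M}` -/
def interfaceEvent (L M : ℕ) : Set Conf :=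
  {ω | ∀ x ∈ bdPlus (box L M), ∀ y ∈ bdMinus (box L M), ¬ (openGraph ω).Reachable x y}

/-- the configuration given by `η` on `E_{L,M}` and by the Dobrushin configuration elsewhere -/
noncomputable def extend (L M : ℕ) (η : edges L M → Bool) : Conf :=
  fun e => if h : e ∈ edges L M then η ⟨e, h⟩ else dob e

/-- the weight of a configuration: `∏ p^ω(e) (1-p)^(1-ω(e)) q^k(ω)` -/
noncomputable def weight (L M : ℕ) (p q : ℝ) (ω : Conf) : ℝ :=
  (∏ e ∈ edges L M, if ω e = true then p else 1 - p) * q ^ clusters (box L M) ω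

open Classical in
/-- the total weight of the event `I_{L,M}` -/
noncomputable def ZI (L M : ℕ) (p q : ℝ) : ℝ :=
  ∑ η : edges L M → Bool,
    if extend L M η ∈ interfaceEvent L M then weight L M p q (extend L M η) else 0

open Classical in
/-- the random-cluster measure on `Λ_{L,M}` with boundary condition `D`, conditioned on `I_{L,M}` -/
noncomputable def phiBar (L M : ℕ) (p q : ℝ) : Measure Conf :=
  ∑ η : edges L M → Bool,
    ENNReal.ofReal (if extend L M η ∈ interfaceEvent L M
      then weight L M p q (extend L M η) / ZI L M p q else 0) • Measure.dirac (extend L M η)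

/-! ### Elementary facts -/

theorem mem_box {L M : ℕ} {x : Vtx} : x ∈ box L M ↔
    (-(L : ℤ) ≤ x.1 ∧ x.1 ≤ L) ∧ (-(L : ℤ) ≤ x.2.1 ∧ x.2.1 ≤ L) ∧
      (-(M : ℤ) ≤ x.2.2 ∧ x.2.2 ≤ M) := by
  unfold box
  rw [Finset.mem_product, Finset.mem_product, Finset.mem_Icc, Finset.mem_Icc, Finset.mem_Icc]

theorem mem_edges {L M : ℕ} {e : Edge} :
    e ∈ edges L M ↔ e.1 ∈ box L M ∨ e.1 + unit e.2 ∈ box L M := by
  unfold edges
  rw [Finset.mem_union, Finset.mem_image]
  constructor
  · rintro (h | ⟨a, ha, rfl⟩)
    · exact Or.inl (Finset.mem_product.1 h).1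
    · right
      simpa using (Finset.mem_product.1 ha).1
  · rintro (h | h)
    · exact Or.inl (Finset.mem_product.2 ⟨h, Finset.mem_univ _⟩)
    · right
      exact ⟨(e.1 + unit e.2, e.2), Finset.mem_product.2 ⟨h, Finset.mem_univ _⟩, by simp⟩

/-! ### The Ising model with `±` boundary condition -/

/-- the boundary condition: `+` (`true`) above, `-` (`false`) below -/
def bc (x : Vtx) : Bool := decide (0 < x.2.2)

/-- the spin configuration given by `τ` in the box and by the boundary condition elsewhere -/
noncomputable def spin (L M : ℕ) (τ : box L M → Bool) : Vtx → Bool :=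
  fun x => if h : x ∈ box L M then τ ⟨x, h⟩ else bc x

/-- the Ising weight -/
noncomputable def isw (L M : ℕ) (p : ℝ) (σ : Vtx → Bool) : ℝ :=
  ∏ e ∈ edges L M, if σ e.1 = σ (e.1 + unit e.2) then 1 else 1 - p

/-- the expectation in the Ising model with `±` boundary condition -/
noncomputable def Esp (L M : ℕ) (p : ℝ) (f : (Vtx → Bool) → ℝ) : ℝ :=
  (∑ τ : box L M → Bool, isw L M p (spin L M τ) * f (spin L M τ)) /
    ∑ τ : box L M → Bool, isw L M p (spin L M τ)

/-- all edges of `F` have equal spins at their ends -/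
noncomputable def agree (F : Finset Edge) (σ : Vtx → Bool) : ℝ :=
  if ∀ e ∈ F, σ e.1 = σ (e.1 + unit e.2) then 1 else 0

open Classical in
/-- the spin configurations compatible with `ω`: constant along the open edges -/
noncomputable def compat (L M : ℕ) (ω : Conf) : Finset (box L M → Bool) :=
  Finset.univ.filter fun τ => ∀ e ∈ edges L M, ω e = true →
    spin L M τ e.1 = spin L M τ (e.1 + unit e.2)

/-- the Edwards-Sokal weight of a configuration of edges -/
noncomputable def esw (L M : ℕ) (p : ℝ) (η : edges L M → Bool) : ℝ :=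
  (∏ e ∈ edges L M, if extend L M η e = true then p else 1 - p) *
    ((compat L M (extend L M η)).card : ℝ)

/-- the upper boundary cluster meets the box -/
def touchTop (L M : ℕ) (ω : Conf) : Prop :=
  ∃ x ∈ box L M, (openGraph ω).Reachable x (0, 0, (M : ℤ) + 1)

/-- the lower boundary cluster meets the box -/
def touchBot (L M : ℕ) (ω : Conf) : Prop :=
  ∃ x ∈ box L M, (openGraph ω).Reachable x (0, 0, -((M : ℤ) + 1))

/-! ### Reflected pairs of spins and duplicated variables -/

/-- the state of a site `x` above the plane: the spin at `x` and minus the spin at the mirror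
image of `x` -/
abbrev St : Type := Bool × Bool

/-- the sign -/
def sg (b : Bool) : ℝ := if b then 1 else -1

/-- `u = (s + t) / 2` -/
noncomputable def uu (z : St) : ℝ := (sg z.1 + sg z.2) / 2

/-- `v = (s - t) / 2` -/
noncomputable def vv (z : St) : ℝ := (sg z.1 - sg z.2) / 2

/-- the reflection in the plane of height `1/2` -/
def mir (x : Vtx) : Vtx := (x.1, x.2.1, 1 - x.2.2)

/-- the states of the sites of `S` in the spin configuration `σ` -/
def pat (S : Finset Vtx) (σ : Vtx → Bool) : S → St := fun x => (σ x, !σ (mir x))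

section dup

variable {V : Type}

/-- `α = u + u'` -/
noncomputable def al (x : V) : (V → St) × (V → St) → ℝ := fun z => uu (z.1 x) + uu (z.2 x)
/-- `β = u - u'` -/
noncomputable def be (x : V) : (V → St) × (V → St) → ℝ := fun z => uu (z.1 x) - uu (z.2 x)
/-- `γ = v + v'` -/
noncomputable def ga (x : V) : (V → St) × (V → St) → ℝ := fun z => vv (z.1 x) + vv (z.2 x)
/-- `δ = v' - v` -/
noncomputable def de (x : V) : (V → St) × (V → St) → ℝ := fun z => vv (z.2 x) - vv (z.1 x)

variable (V) in
/-- the products of the functions `α_x`, `β_x`, `γ_x`, `δ_x` -/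
def mono : Submonoid ((V → St) × (V → St) → ℝ) :=
  Submonoid.closure {f | ∃ x : V, f = al x ∨ f = be x ∨ f = ga x ∨ f = de x}

/-- the kinds of sites: both spins fixed, the upper spin fixed, both spins free -/
inductive Kind : Type
  | C
  | H
  | F
  deriving DecidableEq

/-- allowed states of a site of the given kind -/
def Kind.ok : Kind → St → Bool
  | .C, z => z.1 && z.2
  | .H, z => z.1
  | .F, _ => true

/-- weight of the state of a site -/
noncomputable def sw (k : Kind) (A : ℝ) (z : St) : ℝ :=
  if k.ok z = true then (if z.1 = z.2 then A else 1) else 0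

/-- weight of a configuration of states; the interacting pairs are `(a e, b e)`, `e : ι` -/
noncomputable def wgt {ι : Type} [Fintype V] [Fintype ι] (a b : ι → V) (J : ℝ) (κ : V → Kind)
    (A : V → ℝ) (ζ : V → St) : ℝ :=
  (∏ x, sw (κ x) (A x) (ζ x)) * ∏ e : ι,
    Real.exp (J * (sg (ζ (a e)).1 * sg (ζ (b e)).1 + sg (ζ (a e)).2 * sg (ζ (b e)).2))

/-- the expectation of `m` for two independent copies with laws `x`, `y` -/
noncomputable def pair [Fintype V] [DecidableEq V] (x y : (V → St) → ℝ)
    (m : (V → St) × (V → St) → ℝ) : ℝ :=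
  ∑ ζ : V → St, ∑ ζ' : V → St, x ζ * y ζ' * m (ζ, ζ')

end dup

/-- probability vectors -/
def IsProb {α : Type} [Fintype α] (x : α → ℝ) : Prop := (∀ i, 0 ≤ x i) ∧ ∑ i, x i = 1

/-! ### The upper half of a box, as index set -/

/-- the sites above the plane which are at most one step away from the box `Λ_{L,M}` or from its
mirror image -/
noncomputable def up (L M : ℕ) : Finset Vtx :=
  Finset.Icc (-((L : ℤ) + 1)) (L + 1) ×ˢ Finset.Icc (-((L : ℤ) + 1)) (L + 1) ×ˢ
    Finset.Icc (1 : ℤ) (M + 2)

/-- the edges inside `up L M` -/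
abbrev UEdge (L M : ℕ) : Type := {e : Edge // e.1 ∈ up L M ∧ e.1 + unit e.2 ∈ up L M}

instance (L M : ℕ) : Finite (UEdge L M) := by
  refine Finite.of_injective (β := (up L M) × Fin 3) (fun e => (⟨e.1.1, e.2.1⟩, e.1.2)) ?_
  rintro ⟨⟨x, i⟩, h⟩ ⟨⟨y, j⟩, h'⟩ hxy
  simp only [Prod.mk.injEq, Subtype.mk.injEq] at hxy
  obtain ⟨rfl, rfl⟩ := hxy
  rfl

noncomputable instance (L M : ℕ) : Fintype (UEdge L M) := Fintype.ofFinite _

/-- the first vertex -/
def ua {L M : ℕ} (e : UEdge L M) : up L M := ⟨e.1.1, e.2.1⟩

/-- the second vertex -/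
def ub {L M : ℕ} (e : UEdge L M) : up L M := ⟨e.1.1 + unit e.1.2, e.2.2⟩

/-- the kinds of the sites for the Ising model in `Λ_{L,M}` -/
noncomputable def kd (L M : ℕ) (x : Vtx) : Kind :=
  if x ∈ box L M then Kind.F else if mir x ∈ box L M then Kind.H else Kind.C

/-- the weight of the edge from `x` down to its mirror image -/
noncomputable def AA (p : ℝ) (x : Vtx) : ℝ := if x.2.2 = 1 then 1 - p else 1

/-- the coupling constant -/
noncomputable def JJ (p : ℝ) : ℝ := -(Real.log (1 - p)) / 2

/-- the law of the states of the sites of `S` in the Ising model in `Λ_{L,M}` -/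
noncomputable def vec (S : Finset Vtx) (L M : ℕ) (p : ℝ) : (S → St) → ℝ := fun η =>
  Esp L M p fun σ => if pat S σ = η then 1 else 0

end Pool.Agent.H72.DJ
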