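import Pool.Agent.H72.DJ.Prod

/-!
# The inequality of Messager and Miracle-Sole for duplicated variables

PROOF. `exp_step`: `exp (J g) = ∑_n (J g)^n / n!` (`NormedSpace.expSeries` / `Real.hasSum_exp`…),
`g^n · m` is a sum of elements of `mono V` for `g = αα + ββ + γγ + δδ` (induction on `n` for the
statement: `0 ≤ ∑ W · g^n · m` for all `m ∈ mono V`), then a limit of finite sums (the sum over
`ζ, ζ'` is finite). `dup`: `s s' + t t' = 2 (u u' + v v')` for the two entries, and for the sum of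
the two copies `2 (u_x u_y + u'_x u'_y + v_x v_y + v'_x v'_y) = α_x α_y + β_x β_y + γ_x γ_y + δ_x δ_y`;
so `wgt · wgt = ∏ sw · ∏ sw · ∏_e exp (J g_e)`; induction over the finite set of the `e` with
`exp_step`, start `prod_pos`.
-/

set_option autoImplicit false

namespace Pool.Agent.H72.DJ

variable {V : Type} [Fintype V] [DecidableEq V]

private noncomputable def gg (x y : V) : (V → St) × (V → St) → ℝ := fun z =>
  al x z * al y z + be x z * be y z + ga x z * ga y z + de x z * de y z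

omit [Fintype V] [DecidableEq V] in
private theorem mem_mul {x y : V} {m : (V → St) × (V → St) → ℝ} (hm : m ∈ mono V) :
    (al x * (al y * m) ∈ mono V ∧ be x * (be y * m) ∈ mono V) ∧
      (ga x * (ga y * m) ∈ mono V ∧ de x * (de y * m) ∈ mono V) := by
  have h1 : ∀ x : V, al x ∈ mono V := fun x =>
    Submonoid.subset_closure ⟨x, Or.inl rfl⟩
  have h2 : ∀ x : V, be x ∈ mono V := fun x =>
    Submonoid.subset_closure ⟨x, Or.inr (Or.inl rfl)⟩
  have h3 : ∀ x : V, ga x ∈ mono V := fun x =>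
    Submonoid.subset_closure ⟨x, Or.inr (Or.inr (Or.inl rfl))⟩
  have h4 : ∀ x : V, de x ∈ mono V := fun x =>
    Submonoid.subset_closure ⟨x, Or.inr (Or.inr (Or.inr rfl))⟩
  exact ⟨⟨mul_mem (h1 x) (mul_mem (h1 y) hm), mul_mem (h2 x) (mul_mem (h2 y) hm)⟩,
    mul_mem (h3 x) (mul_mem (h3 y) hm), mul_mem (h4 x) (mul_mem (h4 y) hm)⟩

private theorem pow_step (W : (V → St) × (V → St) → ℝ)
    (hW : ∀ m ∈ mono V, 0 ≤ ∑ ζ : V → St, ∑ ζ' : V → St, W (ζ, ζ') * m (ζ, ζ')) (x y : V) (n : ℕ) :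
    ∀ m ∈ mono V, 0 ≤ ∑ ζ : V → St, ∑ ζ' : V → St,
      W (ζ, ζ') * (gg x y (ζ, ζ') ^ n * m (ζ, ζ')) := by
  induction n with
  | zero =>
    intro m hm
    simpa using hW m hm
  | succ n ih =>
    intro m hm
    obtain ⟨⟨h1, h2⟩, h3, h4⟩ := mem_mul (x := x) (y := y) hm
    have k1 := ih _ h1
    have k2 := ih _ h2
    have k3 := ih _ h3
    have k4 := ih _ h4
    have : ∑ ζ : V → St, ∑ ζ' : V → St, W (ζ, ζ') * (gg x y (ζ, ζ') ^ (n + 1) * m (ζ, ζ')) =
        ∑ ζ : V → St, ∑ ζ' : V → St,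
          W (ζ, ζ') * (gg x y (ζ, ζ') ^ n * (al x * (al y * m)) (ζ, ζ')) +
        ∑ ζ : V → St, ∑ ζ' : V → St,
          W (ζ, ζ') * (gg x y (ζ, ζ') ^ n * (be x * (be y * m)) (ζ, ζ')) +
        ∑ ζ : V → St, ∑ ζ' : V → St,
          W (ζ, ζ') * (gg x y (ζ, ζ') ^ n * (ga x * (ga y * m)) (ζ, ζ')) +
        ∑ ζ : V → St, ∑ ζ' : V → St,
          W (ζ, ζ') * (gg x y (ζ, ζ') ^ n * (de x * (de y * m)) (ζ, ζ')) := by
      simp only [← Finset.sum_add_distrib]
      refine Finset.sum_congr rfl fun ζ _ => Finset.sum_congr rfl fun ζ' _ => ?_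
      simp only [Pi.mul_apply, pow_succ]
      unfold gg
      ring
    rw [this]
    positivity

theorem exp_step (W : (V → St) × (V → St) → ℝ)
    (hW : ∀ m ∈ mono V, 0 ≤ ∑ ζ : V → St, ∑ ζ' : V → St, W (ζ, ζ') * m (ζ, ζ'))
    (J : ℝ) (hJ : 0 ≤ J) (x y : V) :
    ∀ m ∈ mono V, 0 ≤ ∑ ζ : V → St, ∑ ζ' : V → St,
      W (ζ, ζ') * Real.exp (J * (al x (ζ, ζ') * al y (ζ, ζ') + be x (ζ, ζ') * be y (ζ, ζ') +
        ga x (ζ, ζ') * ga y (ζ, ζ') + de x (ζ, ζ') * de y (ζ, ζ'))) * m (ζ, ζ') := by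
  intro m hm
  have hs : HasSum (fun n : ℕ => ∑ ζ : V → St, ∑ ζ' : V → St,
      W (ζ, ζ') * ((J * gg x y (ζ, ζ')) ^ n / (n.factorial : ℝ)) * m (ζ, ζ'))
      (∑ ζ : V → St, ∑ ζ' : V → St, W (ζ, ζ') * Real.exp (J * gg x y (ζ, ζ')) * m (ζ, ζ')) := by
    refine hasSum_sum fun ζ _ => hasSum_sum fun ζ' _ => ?_
    have h : HasSum (fun n : ℕ => (J * gg x y (ζ, ζ')) ^ n / (n.factorial : ℝ))
        (Real.exp (J * gg x y (ζ, ζ'))) := by
      rw [Real.exp_eq_exp_ℝ]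
      exact NormedSpace.expSeries_div_hasSum_exp _
    exact (h.mul_left _).mul_right _
  refine hs.nonneg fun n => ?_
  have h1 := pow_step W hW x y n m hm
  have : ∑ ζ : V → St, ∑ ζ' : V → St,
      W (ζ, ζ') * ((J * gg x y (ζ, ζ')) ^ n / (n.factorial : ℝ)) * m (ζ, ζ') =
      J ^ n / (n.factorial : ℝ) * ∑ ζ : V → St, ∑ ζ' : V → St,
      W (ζ, ζ') * (gg x y (ζ, ζ') ^ n * m (ζ, ζ')) := by
    simp only [Finset.mul_sum]
    refine Finset.sum_congr rfl fun ζ _ => Finset.sum_congr rfl fun ζ' _ => ?_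
    rw [mul_pow]
    ring
  rw [this]
  positivity

theorem dup {ι : Type} [Fintype ι] (a b : ι → V) (J : ℝ) (hJ : 0 ≤ J) (κ κ' : V → Kind)
    (hκ : ∀ x, κ x = Kind.C ∨ κ x = κ' x) (A : V → ℝ) (hA : ∀ x, 0 ≤ A x)
    {m : (V → St) × (V → St) → ℝ} (hm : m ∈ mono V) :
    0 ≤ ∑ ζ : V → St, ∑ ζ' : V → St, wgt a b J κ A ζ * wgt a b J κ' A ζ' * m (ζ, ζ') := by
  classical
  have key : ∀ S : Finset ι, ∀ m ∈ mono V, 0 ≤ ∑ ζ : V → St, ∑ ζ' : V → St,
      (((∏ x, sw (κ x) (A x) (ζ x)) * (∏ x, sw (κ' x) (A x) (ζ' x))) *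
        ∏ e ∈ S, Real.exp (J * gg (a e) (b e) (ζ, ζ'))) * m (ζ, ζ') := by
    intro S
    induction S using Finset.induction_on with
    | empty =>
      intro m hm
      have := prod_pos κ κ' hκ A hA hm
      simpa using this
    | insert e S he ih =>
      intro m hm
      have h := exp_step (fun z => ((∏ x, sw (κ x) (A x) (z.1 x)) *
        (∏ x, sw (κ' x) (A x) (z.2 x))) *
        ∏ e ∈ S, Real.exp (J * gg (a e) (b e) (z.1, z.2))) ih J hJ (a e) (b e) m hm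
      refine le_of_le_of_eq h ?_
      refine Finset.sum_congr rfl fun ζ _ => Finset.sum_congr rfl fun ζ' _ => ?_
      rw [Finset.prod_insert he]
      change _ * Real.exp (J * gg (a e) (b e) (ζ, ζ')) * m (ζ, ζ') = _
      ring
  have h := key Finset.univ m hm
  refine le_of_le_of_eq h ?_
  refine Finset.sum_congr rfl fun ζ _ => Finset.sum_congr rfl fun ζ' _ => ?_
  congr 1
  unfold wgt
  have : ∏ e, Real.exp (J * gg (a e) (b e) (ζ, ζ')) =
      (∏ e : ι, Real.exp (J * (sg (ζ (a e)).1 * sg (ζ (b e)).1 +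
        sg (ζ (a e)).2 * sg (ζ (b e)).2))) *
      ∏ e : ι, Real.exp (J * (sg (ζ' (a e)).1 * sg (ζ' (b e)).1 +
        sg (ζ' (a e)).2 * sg (ζ' (b e)).2)) := by
    rw [← Finset.prod_mul_distrib]
    refine Finset.prod_congr rfl fun e _ => ?_
    rw [← Real.exp_add]
    congr 1
    simp only [gg, al, be, ga, de, uu, vv]
    ring
  rw [this]
  ring

end Pool.Agent.H72.DJ
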