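import Pool.Agent.H72.DJ.Defs

/-!
# The two boundary clusters

PROOFS. An edge with both ends outside the box is not in `edges L M` (`mem_edges`), so `extend`
equals `dob` there: open unless it is the vertical edge between the heights `0` and `1`.
`reach_top`: from `x` outside with `0 < x₃` go up vertically to the height `max x₃ (M+1)` (if
`x₃ ≤ M`, then `|x₁| > L` or `|x₂| > L`, so the whole column is outside the box), then horizontally
to `(0,0,·)`, then down or up to the height `M+1`. `reach_bot` is the same below.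
`interface_iff`: `(0,0,M+1)` is in `∂⁺Λ` and `(0,0,-(M+1))` in `∂⁻Λ`; the vertices of `∂±Λ` are
outside the box and reachable from these two.
-/

set_option autoImplicit false

namespace Pool.Agent.H72.DJ

private lemma adj_out {L M : ℕ} (η : edges L M → Bool) {x : Vtx} {i : Fin 3} (hx : x ∉ box L M)
    (hy : x + unit i ∉ box L M) (h : ¬ (i = 2 ∧ x.2.2 = 0)) :
    (openGraph (extend L M η)).Adj x (x + unit i) := by
  refine ⟨i, Or.inl ⟨rfl, ?_⟩⟩
  have h1 : (x, i) ∉ edges L M := by
    rw [mem_edges]
    rintro (h2 | h2)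
    · exact hx h2
    · exact hy h2
  unfold extend
  rw [dif_neg h1]
  unfold dob
  simp only [Bool.not_eq_true', decide_eq_false_iff_not]
  exact h

private lemma line_up {G : SimpleGraph Vtx} (g : ℤ → Vtx) (a b : ℤ) (hab : a ≤ b)
    (h : ∀ k, a ≤ k → k < b → G.Adj (g k) (g (k + 1))) : G.Reachable (g a) (g b) := by
  induction b, hab using Int.leInduction with
  | base => exact SimpleGraph.Reachable.refl _
  | succ n hn ih =>
    exact (ih fun k h1 h2 => h k h1 (by omega)).trans (h n hn (by omega)).reachable

private lemma line_any {G : SimpleGraph Vtx} (g : ℤ → Vtx) (a b : ℤ)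
    (h : ∀ k, min a b ≤ k → k < max a b → G.Adj (g k) (g (k + 1))) : G.Reachable (g a) (g b) := by
  rcases le_total a b with hab | hab
  · exact line_up g a b hab fun k h1 h2 => h k (by omega) (by omega)
  · exact (line_up g b a hab fun k h1 h2 => h k (by omega) (by omega)).symm

private lemma e0 (a b c : ℤ) : ((a, b, c) : Vtx) + unit 0 = (a + 1, b, c) := by
  simp [unit]

private lemma e1 (a b c : ℤ) : ((a, b, c) : Vtx) + unit 1 = (a, b + 1, c) := by
  simp [unit]

private lemma e2 (a b c : ℤ) : ((a, b, c) : Vtx) + unit 2 = (a, b, c + 1) := by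
  simp [unit]

private lemma horiz {L M : ℕ} (η : edges L M → Bool) (a b c : ℤ) (hc : (M : ℤ) < c ∨ c < -(M : ℤ)) :
    (openGraph (extend L M η)).Reachable (a, b, c) (0, 0, c) := by
  have hout : ∀ a' b' : ℤ, ((a', b', c) : Vtx) ∉ box L M := by
    intro a' b' h
    have := (mem_box.1 h).2.2
    simp only at this
    omega
  have h1 : (openGraph (extend L M η)).Reachable (a, b, c) (0, b, c) := by
    refine line_any (fun k => ((k, b, c) : Vtx)) a 0 fun k _ _ => ?_
    have := adj_out η (x := (k, b, c)) (i := 0) (hout _ _) (by rw [e0]; exact hout _ _)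
      (by intro h; exact absurd h.1 (by decide))
    rwa [e0] at this
  have h2 : (openGraph (extend L M η)).Reachable (0, b, c) (0, 0, c) := by
    refine line_any (fun k => ((0, k, c) : Vtx)) b 0 fun k _ _ => ?_
    have := adj_out η (x := (0, k, c)) (i := 1) (hout _ _) (by rw [e1]; exact hout _ _)
      (by intro h; exact absurd h.1 (by decide))
    rwa [e1] at this
  exact h1.trans h2

private lemma vert {L M : ℕ} (η : edges L M → Bool) (a b c d : ℤ)
    (hout : ∀ k, min c d ≤ k → k ≤ max c d → ((a, b, k) : Vtx) ∉ box L M)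
    (hs : (0 < c ∧ 0 < d) ∨ (c ≤ 0 ∧ d ≤ 0)) :
    (openGraph (extend L M η)).Reachable (a, b, c) (a, b, d) := by
  refine line_any (fun k => ((a, b, k) : Vtx)) c d fun k h1 h2 => ?_
  have := adj_out η (x := (a, b, k)) (i := 2) (hout k h1 (by omega))
    (by rw [e2]; exact hout _ (by omega) (by omega)) (by
      rintro ⟨-, h3⟩
      simp only at h3
      omega)
  rwa [e2] at this

theorem reach_top {L M : ℕ} (η : edges L M → Bool) {x : Vtx} (hx : x ∉ box L M)
    (h0 : 0 < x.2.2) : (openGraph (extend L M η)).Reachable x (0, 0, (M : ℤ) + 1) := by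
  obtain ⟨a, b, c⟩ := x
  simp only at h0
  have h1 : (openGraph (extend L M η)).Reachable (a, b, c) (a, b, max c (M + 1)) := by
    refine vert η a b c _ ?_ (Or.inl ⟨h0, by omega⟩)
    intro k hk1 hk2 hk
    rw [mem_box] at hk hx
    simp only at hk hx
    apply hx
    refine ⟨hk.1, hk.2.1, ?_⟩
    have := hk.2.2
    omega
  have h2 := horiz η a b (max c (M + 1)) (Or.inl (by omega))
  have h3 : (openGraph (extend L M η)).Reachable (0, 0, max c ((M : ℤ) + 1)) (0, 0, (M : ℤ) + 1) := by
    refine vert η 0 0 _ _ ?_ (Or.inl ⟨by omega, by omega⟩)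
    intro k hk1 hk2 hk
    have := (mem_box.1 hk).2.2
    simp only at this
    omega
  exact h1.trans (h2.trans h3)

theorem reach_bot {L M : ℕ} (η : edges L M → Bool) {x : Vtx} (hx : x ∉ box L M)
    (h0 : x.2.2 ≤ 0) : (openGraph (extend L M η)).Reachable x (0, 0, -((M : ℤ) + 1)) := by
  obtain ⟨a, b, c⟩ := x
  simp only at h0
  have h1 : (openGraph (extend L M η)).Reachable (a, b, c) (a, b, min c (-((M : ℤ) + 1))) := by
    refine vert η a b c _ ?_ (Or.inr ⟨h0, by omega⟩)
    intro k hk1 hk2 hk
    rw [mem_box] at hk hx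
    simp only at hk hx
    apply hx
    refine ⟨hk.1, hk.2.1, ?_⟩
    have := hk.2.2
    omega
  have h2 := horiz η a b (min c (-((M : ℤ) + 1))) (Or.inr (by omega))
  have h3 : (openGraph (extend L M η)).Reachable (0, 0, min c (-((M : ℤ) + 1)))
      (0, 0, -((M : ℤ) + 1)) := by
    refine vert η 0 0 _ _ ?_ (Or.inr ⟨by omega, by omega⟩)
    intro k hk1 hk2 hk
    have := (mem_box.1 hk).2.2
    simp only at this
    omega
  exact h1.trans (h2.trans h3)

theorem interface_iff {L M : ℕ} (η : edges L M → Bool) :
    extend L M η ∈ interfaceEvent L M ↔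
      ¬ (openGraph (extend L M η)).Reachable (0, 0, (M : ℤ) + 1) (0, 0, -((M : ℤ) + 1)) := by
  constructor
  · intro h
    refine h _ ?_ _ ?_
    · refine ⟨?_, ?_, (0, 0, (M : ℤ)), ?_, 2, Or.inr ?_⟩
      · intro hm
        have := (mem_box.1 hm).2.2
        simp only at this
        omega
      · simp only
        omega
      · rw [mem_box]
        simp only
        omega
      · rw [e2]
    · refine ⟨?_, ?_, (0, 0, -(M : ℤ)), ?_, 2, Or.inl ?_⟩
      · intro hm
        have := (mem_box.1 hm).2.2
        simp only at this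
        omega
      · simp only
        omega
      · rw [mem_box]
        simp only
        omega
      · rw [e2]
        congr 2
        ring
  · intro h x hx y hy hxy
    exact h ((reach_top η hx.1 hx.2.1).symm.trans (hxy.trans (reach_bot η hy.1 hy.2.1)))

end Pool.Agent.H72.DJ
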