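import Pool.Agent.H72.DJ.Defs

/-!
# The Ising model in the variables `σ_x`, `-σ_{mir x}`

PROOF. Let `V = up L' M`. A configuration `ζ : V → St` with nonzero `∏ sw` is `pat V (spin L M τ)`
for exactly one `τ` (kind `F`: `x` and `mir x` are in the box; kind `H`: only `mir x`; kind `C`: none;
every vertex `y` of the box is `x` or `mir x` for exactly one `x ∈ V`). For `ζ = pat V σ`,
`σ = spin L M τ`: `sw (kd L M x) (AA p x) (ζ x)` is `1` if `x₃ ≠ 1`, and `1` or `1 - p` if `x₃ = 1`
according to whether `σ_x = σ_{mir x}` or not, the factor of the plane edge `(mir x, 2)` in `isw`,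
and the constant `1 - p` if `x` is outside the box. `exp (J s s') = exp J · (1 or 1 - p)` for `s = s'`
or not, so the factor of `e : UEdge` is `exp (2 J)` times the factors in `isw` of the edge `e` and of
its mirror image (which is `(mir x, i)` for horizontal `e = (x, i)`, `(mir (x + unit 2), 2)` for
vertical `e = (x, 2)`); these factors are `1` if the edge is not in `edges L M`. The edges of
`edges L M` are: the `e` of `UEdge L' M` in `edges L M`, their mirror images, and plane edges.
-/

set_option autoImplicit false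

open scoped BigOperators

namespace Pool.Agent.H72.DJ

/-- the factor of an edge in the Ising weight -/
noncomputable def Reidx_g (p : ℝ) (σ : Vtx → Bool) (e : Edge) : ℝ :=
  if σ e.1 = σ (e.1 + unit e.2) then 1 else 1 - p

/-- the mirror image of an edge -/
def Reidx_mE (e : Edge) : Edge := (if e.2 = 2 then mir (e.1 + unit e.2) else mir e.1, e.2)

theorem Reidx_mir_mir (x : Vtx) : mir (mir x) = x := by simp [mir]

theorem Reidx_mir_add (x : Vtx) : mir (x + unit 2) + unit 2 = mir x := by
  simp only [mir, unit, Prod.ext_iff, Prod.fst_add, Prod.snd_add, Matrix.cons_val]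
  refine ⟨by ring, by ring, by ring⟩

theorem Reidx_ite_not (a b : Bool) (r : ℝ) :
    (if (!a) = !b then 1 else r) = if a = b then 1 else r := by
  cases a <;> cases b <;> simp

theorem Reidx_mem_up {L M : ℕ} {x : Vtx} : x ∈ up L M ↔
    (-((L : ℤ) + 1) ≤ x.1 ∧ x.1 ≤ L + 1) ∧ (-((L : ℤ) + 1) ≤ x.2.1 ∧ x.2.1 ≤ L + 1) ∧
      (1 ≤ x.2.2 ∧ x.2.2 ≤ M + 2) := by
  unfold up
  rw [Finset.mem_product, Finset.mem_product, Finset.mem_Icc, Finset.mem_Icc, Finset.mem_Icc]

theorem Reidx_spin_mem {L M : ℕ} {τ : box L M → Bool} {x : Vtx} (h : x ∈ box L M) :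
    spin L M τ x = τ ⟨x, h⟩ := by unfold spin; rw [dif_pos h]

theorem Reidx_spin_out {L M : ℕ} {τ : box L M → Bool} {x : Vtx} (h : x ∉ box L M) :
    spin L M τ x = bc x := by unfold spin; rw [dif_neg h]

theorem Reidx_mir_box {L M : ℕ} {x : Vtx} (h : x ∈ box L M) (h1 : 1 ≤ x.2.2) :
    mir x ∈ box L M := by
  rw [mem_box] at h ⊢
  simp only [mir]
  omega

theorem Reidx_exp {p : ℝ} (hp1 : p < 1) (a b : Bool) :
    Real.exp (JJ p * (sg a * sg b)) = Real.exp (JJ p) * (if a = b then 1 else 1 - p) := by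
  have h : Real.exp (-JJ p) = Real.exp (JJ p) * (1 - p) := by
    calc Real.exp (-JJ p) = Real.exp (JJ p + Real.log (1 - p)) := by
          congr 1; unfold JJ; ring
      _ = Real.exp (JJ p) * Real.exp (Real.log (1 - p)) := Real.exp_add _ _
      _ = _ := by rw [Real.exp_log (by linarith)]
  cases a <;> cases b <;> simp [sg, h]

theorem Reidx_g_mE (p : ℝ) (σ : Vtx → Bool) (e : Edge) :
    Reidx_g p σ (Reidx_mE e) = if σ (mir e.1) = σ (mir (e.1 + unit e.2)) then 1 else 1 - p := by
  obtain ⟨x, i⟩ := e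
  unfold Reidx_g Reidx_mE
  by_cases hi : i = 2
  · subst hi
    have h : mir (x + unit 2) + unit 2 = mir x := Reidx_mir_add x
    simp only [if_true, h]
    by_cases hs : σ (mir x) = σ (mir (x + unit 2))
    · rw [if_pos hs, if_pos hs.symm]
    · rw [if_neg hs, if_neg (fun h => hs h.symm)]
  · have h : mir (x + unit i) = mir x + unit i := by
      fin_cases i <;> simp_all [mir, unit]
    simp only [hi, if_false, h]

theorem Reidx_mE_mE (e : Edge) : Reidx_mE (Reidx_mE e) = e := by
  obtain ⟨x, i⟩ := e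
  unfold Reidx_mE
  by_cases hi : i = 2
  · subst hi
    simp [mir, unit]
  · simp [hi, Reidx_mir_mir]

/-- ends of the mirror image -/
theorem Reidx_mE_up {L M : ℕ} (e : Edge) (h1 : mir e.1 ∈ up L M)
    (h2 : mir (e.1 + unit e.2) ∈ up L M) :
    (Reidx_mE e).1 ∈ up L M ∧ (Reidx_mE e).1 + unit (Reidx_mE e).2 ∈ up L M := by
  obtain ⟨x, i⟩ := e
  unfold Reidx_mE
  by_cases hi : i = 2
  · subst hi
    have h : mir (x + unit 2) + unit 2 = mir x := Reidx_mir_add x
    simp only [if_true, h]
    exact ⟨h2, h1⟩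
  · have h : mir (x + unit i) = mir x + unit i := by
      fin_cases i <;> simp_all [mir, unit]
    simp only [hi, if_false]
    rw [← h]
    exact ⟨h1, h2⟩

theorem Reidx_g_out {L M : ℕ} {p : ℝ} {τ : box L M → Bool} {e : Edge} (h : e ∉ edges L M)
    (hb : bc e.1 = bc (e.1 + unit e.2)) : Reidx_g p (spin L M τ) e = 1 := by
  rw [mem_edges, not_or] at h
  unfold Reidx_g
  rw [Reidx_spin_out h.1, Reidx_spin_out h.2, if_pos hb]

section

variable {L L' M : ℕ} (hL : L ≤ L')

include hL

theorem Reidx_above (p : ℝ) (τ : box L M → Bool) :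
    ∏ e : UEdge L' M, Reidx_g p (spin L M τ) e.1 =
      ∏ e ∈ (edges L M).filter (fun e => 1 ≤ e.1.2.2), Reidx_g p (spin L M τ) e := by
  classical
  have h1 : ∏ e : UEdge L' M, Reidx_g p (spin L M τ) e.1 =
      ∏ e ∈ (Finset.univ : Finset (UEdge L' M)).image (fun e => e.1), Reidx_g p (spin L M τ) e := by
    rw [Finset.prod_image]
    intro a _ b _ h
    exact Subtype.ext h
  rw [h1]
  symm
  apply Finset.prod_subset
  · rintro ⟨x, i⟩ he
    rw [Finset.mem_filter, mem_edges, mem_box, mem_box] at he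
    obtain ⟨he, hx⟩ := he
    have hx1 : x ∈ up L' M ∧ x + unit i ∈ up L' M := by
      rw [Reidx_mem_up, Reidx_mem_up]
      fin_cases i <;> simp [unit] at he hx ⊢ <;> omega
    exact Finset.mem_image.2 ⟨⟨(x, i), hx1⟩, Finset.mem_univ _, rfl⟩
  · intro e he hn
    obtain ⟨⟨e', h1, h2⟩, -, rfl⟩ := Finset.mem_image.1 he
    dsimp only at hn ⊢
    obtain ⟨x, i⟩ := e'
    rw [Reidx_mem_up] at h1 h2
    have h3 : (x, i) ∉ edges L M := fun h => hn (Finset.mem_filter.2 ⟨h, h1.2.2.1⟩)
    apply Reidx_g_out h3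
    unfold bc
    rw [decide_eq_true (by omega), decide_eq_true (by dsimp only at h2 ⊢; omega)]

theorem Reidx_below (p : ℝ) (τ : box L M → Bool) :
    ∏ e : UEdge L' M, Reidx_g p (spin L M τ) (Reidx_mE e.1) =
      ∏ e ∈ (edges L M).filter (fun e => ¬ (1 ≤ e.1.2.2) ∧ ¬ (e.2 = 2 ∧ e.1.2.2 = 0)),
        Reidx_g p (spin L M τ) e := by
  classical
  have h1 : ∏ e : UEdge L' M, Reidx_g p (spin L M τ) (Reidx_mE e.1) =
      ∏ e ∈ (Finset.univ : Finset (UEdge L' M)).image (fun e => Reidx_mE e.1),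
        Reidx_g p (spin L M τ) e := by
    rw [Finset.prod_image]
    intro a _ b _ h
    apply Subtype.ext
    rw [← Reidx_mE_mE a.1, ← Reidx_mE_mE b.1]
    exact congrArg Reidx_mE h
  rw [h1]
  symm
  apply Finset.prod_subset
  · rintro ⟨x, i⟩ he
    rw [Finset.mem_filter, mem_edges, mem_box, mem_box] at he
    obtain ⟨he, hx, hx'⟩ := he
    have hx1 : mir x ∈ up L' M ∧ mir (x + unit i) ∈ up L' M := by
      rw [Reidx_mem_up, Reidx_mem_up]
      fin_cases i <;> simp [unit, mir] at he hx hx' ⊢ <;> omega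
    refine Finset.mem_image.2 ⟨⟨Reidx_mE (x, i), Reidx_mE_up (x, i) hx1.1 hx1.2⟩,
      Finset.mem_univ _, Reidx_mE_mE _⟩
  · intro e he hn
    obtain ⟨⟨⟨x, i⟩, h1, h2⟩, -, rfl⟩ := Finset.mem_image.1 he
    dsimp only at hn ⊢
    rw [Reidx_mem_up] at h1 h2
    have h4 : (Reidx_mE (x, i)).1.2.2 ≤ 0 ∧ ((Reidx_mE (x, i)).1 + unit (Reidx_mE (x, i)).2).2.2 ≤ 0 := by
      unfold Reidx_mE
      fin_cases i <;> simp [unit, mir] at h1 h2 ⊢ <;> omega
    have h3 : Reidx_mE (x, i) ∉ edges L M := by
      intro h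
      refine hn (Finset.mem_filter.2 ⟨h, by omega, ?_⟩)
      rintro ⟨h5, h6⟩
      have h7 := h4.2
      rw [h5] at h7
      simp [unit] at h7
      omega
    apply Reidx_g_out h3
    unfold bc
    rw [decide_eq_false (by omega), decide_eq_false (by omega)]

theorem Reidx_plane (p : ℝ) :
    ∃ n : ℕ, ∀ τ : box L M → Bool,
      ∏ x : up L' M, (if x.1.2.2 = 1 then Reidx_g p (spin L M τ) (mir x.1, 2) else 1) =
      (1 - p) ^ n *
      ∏ e ∈ (edges L M).filter (fun e => e.2 = 2 ∧ e.1.2.2 = 0), Reidx_g p (spin L M τ) e := by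
  classical
  set T : Finset Edge := ((up L' M).filter (fun x => x.2.2 = 1)).image (fun x => (mir x, (2 : Fin 3)))
    with hT
  refine ⟨(T.filter (fun e => e ∉ edges L M)).card, fun τ => ?_⟩
  have h1 : ∏ x : up L' M, (if x.1.2.2 = 1 then Reidx_g p (spin L M τ) (mir x.1, 2) else 1) =
      ∏ e ∈ T, Reidx_g p (spin L M τ) e := by
    rw [hT, Finset.prod_image, Finset.prod_filter]
    · exact Finset.prod_coe_sort (up L' M)
        (fun x => if x.2.2 = 1 then Reidx_g p (spin L M τ) (mir x, 2) else 1)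
    · intro a _ b _ h
      have h' := congrArg Prod.fst h
      dsimp only at h'
      rw [← Reidx_mir_mir a, h', Reidx_mir_mir]
  rw [h1, ← Finset.prod_filter_mul_prod_filter_not T (fun e => e ∉ edges L M)]
  congr 1
  · rw [← Finset.prod_const]
    refine Finset.prod_congr rfl fun e he => ?_
    obtain ⟨he, hn⟩ := Finset.mem_filter.1 he
    obtain ⟨x, hx, rfl⟩ := Finset.mem_image.1 he
    obtain ⟨hx, hx1⟩ := Finset.mem_filter.1 hx
    rw [mem_edges, not_or] at hn
    unfold Reidx_g
    rw [Reidx_spin_out hn.1, Reidx_spin_out hn.2, if_neg]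
    simp [bc, mir, unit, hx1]
  · refine Finset.prod_congr ?_ fun _ _ => rfl
    ext ⟨y, i⟩
    rw [Finset.mem_filter, Finset.mem_filter, not_not]
    constructor
    · rintro ⟨he, h⟩
      refine ⟨h, ?_⟩
      obtain ⟨x, hx, hxe⟩ := Finset.mem_image.1 he
      obtain ⟨hx, hx1⟩ := Finset.mem_filter.1 hx
      rw [Prod.mk.injEq] at hxe
      obtain ⟨rfl, rfl⟩ := hxe
      simp [mir, hx1]
    · rintro ⟨h, hi, hy⟩
      dsimp only at hi hy
      subst hi
      refine ⟨?_, h⟩
      rw [mem_edges, mem_box, mem_box] at h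
      refine Finset.mem_image.2 ⟨mir y, Finset.mem_filter.2 ⟨?_, ?_⟩, ?_⟩
      · rw [Reidx_mem_up]
        simp [unit, mir] at h ⊢
        omega
      · simp [mir, hy]
      · rw [Reidx_mir_mir]

theorem Reidx_val (p : ℝ) (hp1 : p < 1) :
    ∃ c : ℝ, 0 < c ∧ ∀ τ : box L M → Bool,
      wgt (ua (L := L') (M := M)) ub (JJ p) (fun x => kd L M x) (fun x => AA p x)
        (pat (up L' M) (spin L M τ)) = c * isw L M p (spin L M τ) := by
  classical
  obtain ⟨n, hn⟩ := Reidx_plane (M := M) hL p
  refine ⟨(1 - p) ^ n * (Real.exp (JJ p) * Real.exp (JJ p)) ^ (Fintype.card (UEdge L' M)), ?_, ?_⟩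
  · have : 0 < 1 - p := by linarith
    positivity
  intro τ
  set σ := spin L M τ with hσ
  have h1 : ∏ x : up L' M, sw (kd L M x) (AA p x) (pat (up L' M) σ x) =
      ∏ x : up L' M, (if x.1.2.2 = 1 then Reidx_g p σ (mir x.1, 2) else 1) := by
    refine Finset.prod_congr rfl fun x _ => ?_
    obtain ⟨x, hx⟩ := x
    have hx' := Reidx_mem_up.1 hx
    have hok : (kd L M x).ok (pat (up L' M) σ ⟨x, hx⟩) = true := by
      unfold kd
      by_cases hb : x ∈ box L M
      · rw [if_pos hb]; rfl
      · rw [if_neg hb]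
        have hbx : σ x = true := by
          rw [hσ, Reidx_spin_out hb]
          unfold bc
          exact decide_eq_true (by omega)
        by_cases hm : mir x ∈ box L M
        · rw [if_pos hm]
          exact hbx
        · rw [if_neg hm]
          have hmx : σ (mir x) = false := by
            rw [hσ, Reidx_spin_out hm]
            unfold bc mir
            exact decide_eq_false (by dsimp only; omega)
          simp [Kind.ok, pat, hbx, hmx]
    unfold sw
    rw [if_pos hok]
    dsimp only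
    by_cases h1 : x.2.2 = 1
    · have hu : mir x + unit 2 = x := by
        simp [mir, unit, Prod.ext_iff, h1]
      unfold AA Reidx_g pat
      dsimp only
      rw [if_pos h1, if_pos h1, hu]
      cases h2 : σ x <;> cases h3 : σ (mir x) <;> simp
    · unfold AA
      rw [if_neg h1, if_neg h1, ite_self]
  have h2 : ∏ e : UEdge L' M, Real.exp (JJ p *
        (sg (pat (up L' M) σ (ua e)).1 * sg (pat (up L' M) σ (ub e)).1 +
          sg (pat (up L' M) σ (ua e)).2 * sg (pat (up L' M) σ (ub e)).2)) =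
      (Real.exp (JJ p) * Real.exp (JJ p)) ^ (Fintype.card (UEdge L' M)) *
        ((∏ e : UEdge L' M, Reidx_g p σ e.1) * ∏ e : UEdge L' M, Reidx_g p σ (Reidx_mE e.1)) := by
    rw [← Finset.prod_mul_distrib, ← Finset.card_univ, ← Finset.prod_const,
      ← Finset.prod_mul_distrib]
    refine Finset.prod_congr rfl fun e _ => ?_
    rw [mul_add, Real.exp_add, Reidx_exp hp1, Reidx_exp hp1, Reidx_g_mE]
    have h3 : (if (pat (up L' M) σ (ua e)).1 = (pat (up L' M) σ (ub e)).1 then (1:ℝ) else 1 - p) =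
        Reidx_g p σ e.1 := rfl
    have h4 : (if (pat (up L' M) σ (ua e)).2 = (pat (up L' M) σ (ub e)).2 then (1:ℝ) else 1 - p) =
        if σ (mir e.1.1) = σ (mir (e.1.1 + unit e.1.2)) then 1 else 1 - p := by
      exact Reidx_ite_not _ _ _
    rw [h3, h4]
    ring
  have h5 : isw L M p σ = (∏ e ∈ (edges L M).filter (fun e => e.2 = 2 ∧ e.1.2.2 = 0), Reidx_g p σ e) *
      ((∏ e ∈ (edges L M).filter (fun e => 1 ≤ e.1.2.2), Reidx_g p σ e) *
      ∏ e ∈ (edges L M).filter (fun e => ¬ (1 ≤ e.1.2.2) ∧ ¬ (e.2 = 2 ∧ e.1.2.2 = 0)),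
        Reidx_g p σ e) := by
    have h6 : isw L M p σ = ∏ e ∈ edges L M, Reidx_g p σ e := rfl
    rw [h6, ← Finset.prod_filter_mul_prod_filter_not (edges L M) (fun e => e.2 = 2 ∧ e.1.2.2 = 0)]
    congr 1
    rw [← Finset.prod_filter_mul_prod_filter_not ((edges L M).filter _) (fun e => 1 ≤ e.1.2.2),
      Finset.filter_filter, Finset.filter_filter]
    congr 1
    · refine Finset.prod_congr (Finset.filter_congr fun e _ => ?_) fun _ _ => rfl
      constructor
      · exact fun h => h.2
      · exact fun h => ⟨fun h' => by omega, h⟩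
    · refine Finset.prod_congr (Finset.filter_congr fun e _ => ?_) fun _ _ => rfl
      exact and_comm
  unfold wgt
  rw [h1, h2, hn, Reidx_above hL, Reidx_below hL, h5]
  ring

end

theorem reidx (L L' M : ℕ) (hL : L ≤ L') (p : ℝ) (hp0 : 0 < p) (hp1 : p < 1) :
    ∃ c : ℝ, 0 < c ∧ ∀ f : ((up L' M) → St) → ℝ,
      ∑ ζ : (up L' M) → St, wgt (ua (L := L') (M := M)) ub (JJ p) (fun x => kd L M x)
        (fun x => AA p x) ζ * f ζ =
      c * ∑ τ : box L M → Bool, isw L M p (spin L M τ) * f (pat (up L' M) (spin L M τ)) := by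
  classical
  obtain ⟨c, hc, hval⟩ := Reidx_val (M := M) hL p hp1
  refine ⟨c, hc, fun f => ?_⟩
  have hinj : Function.Injective (fun τ : box L M → Bool => pat (up L' M) (spin L M τ)) := by
    intro τ τ' h
    funext ⟨y, hy⟩
    have hy' := mem_box.1 hy
    by_cases h1 : 1 ≤ y.2.2
    · have hu : y ∈ up L' M := by rw [Reidx_mem_up]; omega
      have h2 := congrArg Prod.fst (congrFun h ⟨y, hu⟩)
      change spin L M τ y = spin L M τ' y at h2
      rwa [Reidx_spin_mem hy, Reidx_spin_mem hy] at h2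
    · have hu : mir y ∈ up L' M := by rw [Reidx_mem_up]; simp only [mir]; omega
      have h2 := congrArg Prod.snd (congrFun h ⟨mir y, hu⟩)
      change (!spin L M τ (mir (mir y))) = (!spin L M τ' (mir (mir y))) at h2
      rw [Reidx_mir_mir, Reidx_spin_mem hy, Reidx_spin_mem hy] at h2
      exact Bool.not_inj h2
  have hz : ∀ ζ : (up L' M) → St,
      ζ ∉ (Finset.univ : Finset (box L M → Bool)).image
        (fun τ => pat (up L' M) (spin L M τ)) →
      wgt (ua (L := L') (M := M)) ub (JJ p) (fun x => kd L M x) (fun x => AA p x) ζ = 0 := by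
    intro ζ hζ
    by_contra hne
    apply hζ
    have hok : ∀ x : up L' M, (kd L M x).ok (ζ x) = true := by
      intro x
      by_contra hx
      apply hne
      unfold wgt
      rw [Finset.prod_eq_zero (Finset.mem_univ x), zero_mul]
      unfold sw
      rw [if_neg hx]
    have hmu : ∀ y : Vtx, y ∈ box L M → ¬ (1 ≤ y.2.2) → mir y ∈ up L' M := by
      intro y hy h1
      have hy' := mem_box.1 hy
      rw [Reidx_mem_up]; simp only [mir]; omega
    have hyu : ∀ y : Vtx, y ∈ box L M → 1 ≤ y.2.2 → y ∈ up L' M := by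
      intro y hy h1
      have hy' := mem_box.1 hy
      rw [Reidx_mem_up]; omega
    refine Finset.mem_image.2 ⟨fun y => if h : 1 ≤ y.1.2.2 then (ζ ⟨y.1, hyu y.1 y.2 h⟩).1
      else !(ζ ⟨mir y.1, hmu y.1 y.2 h⟩).2, Finset.mem_univ _, ?_⟩
    funext ⟨x, hx⟩
    have hx' := Reidx_mem_up.1 hx
    have hx1 : 1 ≤ x.2.2 := hx'.2.2.1
    have hk := hok ⟨x, hx⟩
    unfold pat
    apply Prod.ext
    · dsimp only
      by_cases hb : x ∈ box L M
      · rw [Reidx_spin_mem hb, dif_pos hx1]
      · rw [Reidx_spin_out hb]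
        have h2 : (ζ ⟨x, hx⟩).1 = true := by
          unfold kd at hk
          rw [if_neg hb] at hk
          by_cases hm : mir x ∈ box L M
          · rw [if_pos hm] at hk
            exact hk
          · rw [if_neg hm] at hk
            simp only [Kind.ok, Bool.and_eq_true] at hk
            exact hk.1
        rw [h2]
        unfold bc
        exact decide_eq_true (by omega)
    · dsimp only
      by_cases hm : mir x ∈ box L M
      · have h3 : ¬ (1 ≤ (mir x).2.2) := by simp only [mir]; omega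
        rw [Reidx_spin_mem hm, dif_neg h3, Bool.not_not]
        congr 2
        exact Subtype.ext (Reidx_mir_mir x)
      · rw [Reidx_spin_out hm]
        have hb : x ∉ box L M := fun h => hm (Reidx_mir_box h hx1)
        have h2 : (ζ ⟨x, hx⟩).2 = true := by
          unfold kd at hk
          rw [if_neg hb, if_neg hm] at hk
          simp only [Kind.ok, Bool.and_eq_true] at hk
          exact hk.2
        rw [h2]
        unfold bc mir
        rw [decide_eq_false (by dsimp only; omega)]
        rfl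
  rw [Finset.mul_sum, ← Finset.sum_subset (Finset.subset_univ
    ((Finset.univ : Finset (box L M → Bool)).image (fun τ => pat (up L' M) (spin L M τ))))
    (fun ζ _ hζ => by rw [hz ζ hζ, zero_mul]), Finset.sum_image (fun a _ b _ h => hinj h)]
  refine Finset.sum_congr rfl fun τ _ => ?_
  rw [hval τ]
  ring

end Pool.Agent.H72.DJ
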