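import Pool.Agent.H72.DJ.Weak
import Pool.Agent.H72.DJ.Cmp
import Pool.Agent.H72.DJ.Dup
import Pool.Agent.H72.DJ.Conv
import Pool.Agent.H72.DJ.Reidx

/-!
# The infinite-volume limit for `q = 2`
-/

set_option autoImplicit false

open MeasureTheory Filter Topology

namespace Pool.Agent.H72.DJ

private theorem isw_pos {L M : ℕ} {p : ℝ} (hp1 : p < 1) (σ : Vtx → Bool) : 0 < isw L M p σ := by
  unfold isw
  refine Finset.prod_pos fun e _ => ?_
  split_ifs
  · exact one_pos
  · linarith

private theorem Z_pos (L M : ℕ) {p : ℝ} (hp1 : p < 1) :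
    0 < ∑ τ : box L M → Bool, isw L M p (spin L M τ) :=
  Finset.sum_pos (fun _ _ => isw_pos hp1 _) Finset.univ_nonempty

private theorem Esp_pat (S : Finset Vtx) (L M : ℕ) (p : ℝ) (g : (S → St) → ℝ) :
    Esp L M p (fun σ => g (pat S σ)) = ∑ η, vec S L M p η * g η := by
  classical
  unfold vec Esp
  simp only [div_mul_eq_mul_div]
  rw [← Finset.sum_div]
  congr 1
  simp only [Finset.sum_mul]
  rw [Finset.sum_comm]
  refine Finset.sum_congr rfl fun τ _ => ?_
  simp only [mul_ite, mul_one, mul_zero, ite_mul, zero_mul]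
  rw [Finset.sum_ite_eq]
  simp

private theorem vec_prob (S : Finset Vtx) (L M : ℕ) {p : ℝ} (hp1 : p < 1) :
    IsProb (vec S L M p) := by
  constructor
  · intro η
    unfold vec Esp
    refine div_nonneg (Finset.sum_nonneg fun τ _ => mul_nonneg (isw_pos hp1 _).le ?_)
      (Z_pos L M hp1).le
    dsimp only
    split_ifs <;> norm_num
  · have h := Esp_pat S L M p (fun _ => 1)
    simp only [mul_one] at h
    rw [← h]
    unfold Esp
    simp only [mul_one]
    exact div_self (Z_pos L M hp1).ne'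

private theorem kd_compat {L L' M : ℕ} (hL : L ≤ L') (x : Vtx) :
    kd L M x = Kind.C ∨ kd L M x = kd L' M x := by
  have hb : ∀ y, y ∈ box L M → y ∈ box L' M := by
    intro y hy
    rw [mem_box] at hy ⊢
    have : (L : ℤ) ≤ L' := by exact_mod_cast hL
    omega
  unfold kd
  by_cases h1 : x ∈ box L M
  · right
    rw [if_pos h1, if_pos (hb x h1)]
  · rw [if_neg h1]
    by_cases h2 : mir x ∈ box L M
    · right
      have h3 : x ∉ box L' M := by
        intro h3
        apply h1
        rw [mem_box] at h2 h3 ⊢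
        unfold mir at h2
        simp only at h2
        omega
      rw [if_pos h2, if_neg h3, if_pos (hb _ h2)]
    · left
      rw [if_neg h2]

private theorem pos {S : Finset Vtx} {L L' M : ℕ} (hL : L ≤ L') {p : ℝ} (hp0 : 0 < p)
    (hp1 : p < 1) (hS : S ⊆ up L' M) {m : (S → St) × (S → St) → ℝ} (hm : m ∈ mono S) :
    0 ≤ pair (vec S L M p) (vec S L' M p) m := by
  classical
  set g : S → up L' M := fun x => ⟨x.1, hS x.2⟩ with hg
  have hm' := mono_comap g hm
  obtain ⟨c, hc, hr⟩ := reidx L L' M hL p hp0 hp1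
  obtain ⟨c', hc', hr'⟩ := reidx L' L' M le_rfl p hp0 hp1
  have hd := dup (ua (L := L') (M := M)) ub (JJ p)
    (by
      unfold JJ
      have := Real.log_nonpos (by linarith : 0 ≤ 1 - p) (by linarith)
      linarith)
    (fun x => kd L M x) (fun x => kd L' M x) (fun x => kd_compat hL x)
    (fun x => AA p x) (fun x => by
      unfold AA
      split_ifs
      · linarith
      · exact zero_le_one) hm'
  have h1 : ∑ ζ : (up L' M) → St, ∑ ζ' : (up L' M) → St,
      wgt (ua (L := L') (M := M)) ub (JJ p) (fun x => kd L M x) (fun x => AA p x) ζ *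
        wgt (ua (L := L') (M := M)) ub (JJ p) (fun x => kd L' M x) (fun x => AA p x) ζ' *
        m (ζ ∘ g, ζ' ∘ g) =
      c * ∑ τ : box L M → Bool, isw L M p (spin L M τ) *
        (c' * ∑ τ' : box L' M → Bool, isw L' M p (spin L' M τ') *
          m (pat S (spin L M τ), pat S (spin L' M τ'))) := by
    have h2 : ∀ ζ : (up L' M) → St, ∑ ζ' : (up L' M) → St,
        wgt (ua (L := L') (M := M)) ub (JJ p) (fun x => kd L M x) (fun x => AA p x) ζ *
        wgt (ua (L := L') (M := M)) ub (JJ p) (fun x => kd L' M x) (fun x => AA p x) ζ' *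
        m (ζ ∘ g, ζ' ∘ g) =
        wgt (ua (L := L') (M := M)) ub (JJ p) (fun x => kd L M x) (fun x => AA p x) ζ *
        (c' * ∑ τ' : box L' M → Bool, isw L' M p (spin L' M τ') *
          m (ζ ∘ g, pat S (spin L' M τ'))) := by
      intro ζ
      have h3 := hr' (fun ζ' => m (ζ ∘ g, ζ' ∘ g))
      have h4 : (∑ τ' : box L' M → Bool, isw L' M p (spin L' M τ') *
          m (ζ ∘ g, pat (up L' M) (spin L' M τ') ∘ g)) =
          ∑ τ' : box L' M → Bool, isw L' M p (spin L' M τ') *
          m (ζ ∘ g, pat S (spin L' M τ')) := rfl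
      rw [← h4, ← h3, Finset.mul_sum]
      refine Finset.sum_congr rfl fun ζ' _ => ?_
      ring
    rw [Finset.sum_congr rfl fun ζ _ => h2 ζ]
    exact hr (fun ζ => c' * ∑ τ' : box L' M → Bool, isw L' M p (spin L' M τ') *
          m (ζ ∘ g, pat S (spin L' M τ')))
  have h5 : pair (vec S L M p) (vec S L' M p) m =
      (∑ τ : box L M → Bool, isw L M p (spin L M τ) *
        (∑ τ' : box L' M → Bool, isw L' M p (spin L' M τ') *
          m (pat S (spin L M τ), pat S (spin L' M τ')))) /
      ((∑ τ : box L M → Bool, isw L M p (spin L M τ)) *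
        ∑ τ : box L' M → Bool, isw L' M p (spin L' M τ)) := by
    unfold pair
    have h6 : ∀ ζ : S → St, ∑ ζ' : S → St, vec S L M p ζ * vec S L' M p ζ' * m (ζ, ζ') =
        vec S L M p ζ * Esp L' M p (fun σ => m (ζ, pat S σ)) := by
      intro ζ
      rw [Esp_pat S L' M p (fun ζ' => m (ζ, ζ')), Finset.mul_sum]
      refine Finset.sum_congr rfl fun ζ' _ => ?_
      ring
    rw [Finset.sum_congr rfl fun ζ _ => h6 ζ,
      ← Esp_pat S L M p (fun ζ => Esp L' M p (fun σ => m (ζ, pat S σ)))]
    unfold Esp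
    have h9 : ∀ a b c : ℝ, a / (b * c) = a / c / b := fun a b c => by
      rw [mul_comm, div_div]
    rw [h9]
    congr 1
    simp only [← mul_div_assoc]
    rw [← Finset.sum_div]
  rw [h5]
  refine div_nonneg ?_ (mul_pos (Z_pos L M hp1) (Z_pos L' M hp1)).le
  have h7 : 0 ≤ c * ∑ τ : box L M → Bool, isw L M p (spin L M τ) *
        (c' * ∑ τ' : box L' M → Bool, isw L' M p (spin L' M τ') *
          m (pat S (spin L M τ), pat S (spin L' M τ'))) := by
    rw [← h1]
    exact hd
  have h8 : c * ∑ τ : box L M → Bool, isw L M p (spin L M τ) *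
        (c' * ∑ τ' : box L' M → Bool, isw L' M p (spin L' M τ') *
          m (pat S (spin L M τ), pat S (spin L' M τ'))) =
      (c * c') * ∑ τ : box L M → Bool, isw L M p (spin L M τ) *
        (∑ τ' : box L' M → Bool, isw L' M p (spin L' M τ') *
          m (pat S (spin L M τ), pat S (spin L' M τ'))) := by
    rw [mul_assoc]
    congr 1
    rw [Finset.mul_sum]
    refine Finset.sum_congr rfl fun τ _ => ?_
    ring
  rw [h8] at h7
  exact nonneg_of_mul_nonneg_right h7 (mul_pos hc hc')

/-- the vertex of the upper half space on which the spin at `x` is recorded -/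
private def tp (x : Vtx) : Vtx := if 0 < x.2.2 then x else mir x

open Classical in
/-- reading off the spin at `x` -/
private noncomputable def rd (S : Finset Vtx) (η : S → St) (x : Vtx) : Bool :=
  if 0 < x.2.2 then (if h : x ∈ S then (η ⟨x, h⟩).1 else true)
  else (if h : mir x ∈ S then !(η ⟨mir x, h⟩).2 else true)

private theorem mir_mir (x : Vtx) : mir (mir x) = x := by
  unfold mir
  simp

private theorem rd_pat {S : Finset Vtx} {σ : Vtx → Bool} {x : Vtx} (hx : tp x ∈ S) :
    rd S (pat S σ) x = σ x := by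
  unfold rd tp at *
  split_ifs at hx with h
  · rw [if_pos h, dif_pos hx]
    rfl
  · rw [if_neg h, dif_pos hx]
    unfold pat
    simp [mir_mir]

private theorem agree_rd {S : Finset Vtx} {F : Finset Edge} (σ : Vtx → Bool)
    (h : ∀ e ∈ F, tp e.1 ∈ S ∧ tp (e.1 + unit e.2) ∈ S) :
    agree F σ = agree F (rd S (pat S σ)) := by
  unfold agree
  have h1 : (∀ e ∈ F, σ e.1 = σ (e.1 + unit e.2)) ↔
      ∀ e ∈ F, rd S (pat S σ) e.1 = rd S (pat S σ) (e.1 + unit e.2) := by
    constructor
    · intro h2 e he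
      rw [rd_pat (h e he).1, rd_pat (h e he).2]
      exact h2 e he
    · intro h2 e he
      have := h2 e he
      rwa [rd_pat (h e he).1, rd_pat (h e he).2] at this
  simp only [h1]

private theorem box_mono {L L' M M' : ℕ} (hL : L ≤ L') (hM : M ≤ M') : box L M ⊆ box L' M' := by
  intro x hx
  rw [mem_box] at hx ⊢
  have h1 : (L : ℤ) ≤ L' := by exact_mod_cast hL
  have h2 : (M : ℤ) ≤ M' := by exact_mod_cast hM
  omega

private theorem edges_mono {L L' M M' : ℕ} (hL : L ≤ L') (hM : M ≤ M') :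
    edges L M ⊆ edges L' M' := by
  intro e he
  rw [mem_edges] at he ⊢
  exact he.imp (fun h => box_mono hL hM h) fun h => box_mono hL hM h

private theorem exists_box (T : Finset Vtx) : ∃ N : ℕ, T ⊆ box N N := by
  classical
  refine ⟨∑ x ∈ T, (x.1.natAbs + x.2.1.natAbs + x.2.2.natAbs), fun x hx => ?_⟩
  have h := Finset.single_le_sum (f := fun x : Vtx => x.1.natAbs + x.2.1.natAbs + x.2.2.natAbs)
    (fun _ _ => Nat.zero_le _) hx
  rw [mem_box]
  omega

private theorem mem_up {L M : ℕ} {x : Vtx} : x ∈ up L M ↔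
    (-((L : ℤ) + 1) ≤ x.1 ∧ x.1 ≤ L + 1) ∧ (-((L : ℤ) + 1) ≤ x.2.1 ∧ x.2.1 ≤ L + 1) ∧
      (1 ≤ x.2.2 ∧ x.2.2 ≤ M + 2) := by
  unfold up
  rw [Finset.mem_product, Finset.mem_product, Finset.mem_Icc, Finset.mem_Icc, Finset.mem_Icc]

theorem main (p : ℝ) (hp0 : 0 < p) (hp1 : p < 1) (φ : ℕ → ProbabilityMeasure Conf)
    (hφ : ∀ L, 1 ≤ L → ∀ f : C(Conf, ℝ), Tendsto (fun M => ∫ ω, f ω ∂(phiBar L M p 2)) atTop
      (𝓝 (∫ ω, f ω ∂(φ L : Measure Conf)))) :
    ∃ ν : ProbabilityMeasure Conf, Tendsto φ atTop (𝓝 ν) := by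
  classical
  refine weak_of_cyl φ fun F => ?_
  set S : Finset Vtx := F.image (fun e => tp e.1) ∪ F.image (fun e => tp (e.1 + unit e.2)) with hS
  have hSF : ∀ e ∈ F, tp e.1 ∈ S ∧ tp (e.1 + unit e.2) ∈ S := fun e he =>
    ⟨Finset.mem_union_left _ (Finset.mem_image_of_mem _ he),
      Finset.mem_union_right _ (Finset.mem_image.2 ⟨e, he, rfl⟩)⟩
  have hSpos : ∀ x ∈ S, 0 < x.2.2 := by
    have htp : ∀ x : Vtx, 0 < (tp x).2.2 := by
      intro x
      unfold tp
      split_ifs with h
      · exact h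
      · unfold mir
        simp only
        omega
    intro x hx
    rcases Finset.mem_union.1 hx with h | h
    · obtain ⟨e, -, rfl⟩ := Finset.mem_image.1 h
      exact htp _
    · obtain ⟨e, -, rfl⟩ := Finset.mem_image.1 h
      exact htp _
  obtain ⟨N, hN⟩ := exists_box (S ∪ F.image (fun e => e.1))
  have hFe : ∀ L M, N ≤ L → N ≤ M → F ⊆ edges L M := by
    intro L M hL hM e he
    rw [mem_edges]
    left
    exact box_mono hL hM (hN (Finset.mem_union_right _ (Finset.mem_image_of_mem _ he)))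
  have hSu : ∀ L M, N ≤ L → N ≤ M → S ⊆ up L M := by
    intro L M hL hM x hx
    have h1 := hN (Finset.mem_union_left _ hx)
    have h2 := hSpos x hx
    rw [mem_box] at h1
    rw [mem_up]
    have h3 : (N : ℤ) ≤ L := by exact_mod_cast hL
    have h4 : (N : ℤ) ≤ M := by exact_mod_cast hM
    omega
  refine conv2 (S := S) (fun L M => vec S L M p) (fun L M => vec_prob S L M hp1) (N + 1)
    (fun L L' hL hLL' => ?_) (fun η => p ^ F.card * agree F (rd S η)) _ (fun L hL => ?_)
  · filter_upwards [eventually_ge_atTop N] with M hM m hm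
    exact pos hLL' hp0 hp1 (hSu L' M (by omega) hM) hm
  · have h1 := cyl_tendsto (fun M => phiBar L M p 2) (φ L : Measure Conf) (hφ L (by omega)) F
    have h2 := cmp p hp0 hp1 L N F (hFe L N (by omega) le_rfl)
    have h3 := h1.sub h2
    rw [sub_zero] at h3
    refine h3.congr fun M => ?_
    rw [sub_sub_cancel]
    have h4 : Esp L M p (agree F) = Esp L M p (fun σ => agree F (rd S (pat S σ))) := by
      unfold Esp
      congr 1
      refine Finset.sum_congr rfl fun τ _ => ?_
      exact congrArg _ (agree_rd (spin L M τ) hSF)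
    rw [h4, Esp_pat S L M p (fun η => agree F (rd S η)), Finset.mul_sum]
    refine Finset.sum_congr rfl fun η _ => ?_
    ring

end Pool.Agent.H72.DJ
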