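import Pool.Agent.H72.DJ.Defs

set_option autoImplicit false

/-!
# Representation of the products, and the algebra which they generate

PROOFS. `mono_rep`: `Submonoid.closure_induction`. `mono_swap`: the generators go to plus or minus
themselves. `mono_comap`: if `g : W → V`, then `m ∘ (restriction along g) ∈ mono V`... (composition
with `fun ζ => ζ ∘ g` maps `al x` to `al (g x)` etc.). `mono_span`: the span of a submonoid is a
subalgebra; it contains `u(ζ_x)`, `v(ζ_x)`, `u(ζ'_x)`, `v(ζ'_x)`, hence the signs of the entries of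
`ζ_x` and `ζ'_x`, hence the indicators `(1 ± s)/2` and their products, the indicators of points.
-/

namespace Pool.Agent.H72.DJ

variable {V : Type}

theorem mono_rep [Fintype V] {m : (V → St) × (V → St) → ℝ} (hm : m ∈ mono V) :
    ∃ a b c d : V → ℕ, m = fun z => ∏ x : V,
      (al x z ^ a x * be x z ^ b x * ga x z ^ c x * de x z ^ d x) := by
  classical
  have hs : ∀ (g : V → (V → St) × (V → St) → ℝ) (x : V) (z : (V → St) × (V → St)),
      ∏ y : V, g y z ^ (Pi.single x 1 : V → ℕ) y = g x z := by
    intro g x z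
    rw [Finset.prod_eq_single x]
    · simp
    · intro y _ hy
      simp [Pi.single_eq_of_ne hy]
    · intro h
      exact absurd (Finset.mem_univ x) h
  unfold mono at hm
  induction hm using Submonoid.closure_induction with
  | mem f hf =>
    obtain ⟨x, rfl | rfl | rfl | rfl⟩ := hf
    · refine ⟨Pi.single x 1, 0, 0, 0, ?_⟩
      funext z
      simp [hs al]
    · refine ⟨0, Pi.single x 1, 0, 0, ?_⟩
      funext z
      simp [hs be]
    · refine ⟨0, 0, Pi.single x 1, 0, ?_⟩
      funext z
      simp [hs ga]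
    · refine ⟨0, 0, 0, Pi.single x 1, ?_⟩
      funext z
      simp [hs de]
  | one =>
    refine ⟨0, 0, 0, 0, ?_⟩
    funext z
    simp
  | mul f g _ _ hf hg =>
    obtain ⟨a, b, c, d, rfl⟩ := hf
    obtain ⟨a', b', c', d', rfl⟩ := hg
    refine ⟨a + a', b + b', c + c', d + d', ?_⟩
    funext z
    rw [Pi.mul_apply, ← Finset.prod_mul_distrib]
    refine Finset.prod_congr rfl fun x _ => ?_
    simp only [Pi.add_apply, pow_add]
    ring

theorem mono_swap {m : (V → St) × (V → St) → ℝ} (hm : m ∈ mono V) :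
    (∀ z, m (z.2, z.1) = m z) ∨ ∀ z, m (z.2, z.1) = -m z := by
  unfold mono at hm
  induction hm using Submonoid.closure_induction with
  | mem f hf =>
    obtain ⟨x, rfl | rfl | rfl | rfl⟩ := hf
    · left
      intro z
      simp only [al]
      ring
    · right
      intro z
      simp only [be]
      ring
    · left
      intro z
      simp only [ga]
      ring
    · right
      intro z
      simp only [de]
      ring
  | one =>
    left
    intro z
    rfl
  | mul f g _ _ hf hg =>
    rcases hf with hf | hf <;> rcases hg with hg | hg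
    · left
      intro z
      rw [Pi.mul_apply, Pi.mul_apply, hf, hg]
    · right
      intro z
      rw [Pi.mul_apply, Pi.mul_apply, hf, hg]
      ring
    · right
      intro z
      rw [Pi.mul_apply, Pi.mul_apply, hf, hg]
      ring
    · left
      intro z
      rw [Pi.mul_apply, Pi.mul_apply, hf, hg]
      ring

theorem mono_comap {W : Type} (g : W → V) {m : (W → St) × (W → St) → ℝ} (hm : m ∈ mono W) :
    (fun z : (V → St) × (V → St) => m (z.1 ∘ g, z.2 ∘ g)) ∈ mono V := by
  unfold mono at hm
  induction hm using Submonoid.closure_induction with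
  | mem f hf =>
    obtain ⟨x, rfl | rfl | rfl | rfl⟩ := hf
    · exact Submonoid.subset_closure ⟨g x, Or.inl rfl⟩
    · exact Submonoid.subset_closure ⟨g x, Or.inr (Or.inl rfl)⟩
    · exact Submonoid.subset_closure ⟨g x, Or.inr (Or.inr (Or.inl rfl))⟩
    · exact Submonoid.subset_closure ⟨g x, Or.inr (Or.inr (Or.inr rfl))⟩
  | one => exact (mono V).one_mem
  | mul f h _ _ hf hh => exact (mono V).mul_mem hf hh

private theorem sg_mul_self (b : Bool) : sg b * sg b = 1 := by
  cases b <;> simp [sg]

private theorem sg_mul_ne {b c : Bool} (h : b ≠ c) : sg b * sg c = -1 := by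
  cases b <;> cases c <;> simp_all [sg]

theorem mono_span [Finite V] :
    Submodule.span ℝ ((mono V : Submonoid _) : Set ((V → St) × (V → St) → ℝ)) = ⊤ := by
  classical
  cases nonempty_fintype V
  set G : Set ((V → St) × (V → St) → ℝ) :=
    {f | ∃ x : V, f = al x ∨ f = be x ∨ f = ga x ∨ f = de x} with hG
  have h0 : Submodule.span ℝ ((mono V : Submonoid _) : Set ((V → St) × (V → St) → ℝ)) =
      Subalgebra.toSubmodule (Algebra.adjoin ℝ G) := (Algebra.adjoin_eq_span ℝ G).symm
  rw [h0]
  set A := Algebra.adjoin ℝ G with hA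
  have hal : ∀ x, al x ∈ A := fun x => Algebra.subset_adjoin ⟨x, Or.inl rfl⟩
  have hbe : ∀ x, be x ∈ A := fun x => Algebra.subset_adjoin ⟨x, Or.inr (Or.inl rfl)⟩
  have hga : ∀ x, ga x ∈ A := fun x => Algebra.subset_adjoin ⟨x, Or.inr (Or.inr (Or.inl rfl))⟩
  have hde : ∀ x, de x ∈ A := fun x => Algebra.subset_adjoin ⟨x, Or.inr (Or.inr (Or.inr rfl))⟩
  have h11 : ∀ x, (fun z : (V → St) × (V → St) => sg (z.1 x).1) ∈ A := by
    intro x
    have h : (fun z : (V → St) × (V → St) => sg (z.1 x).1) =
        (1 / 2 : ℝ) • (al x + be x + ga x - de x) := by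
      funext z
      simp only [Pi.smul_apply, Pi.add_apply, Pi.sub_apply, al, be, ga, de, uu, vv, smul_eq_mul]
      ring
    rw [h]
    exact A.smul_mem (A.sub_mem (A.add_mem (A.add_mem (hal x) (hbe x)) (hga x)) (hde x)) _
  have h12 : ∀ x, (fun z : (V → St) × (V → St) => sg (z.1 x).2) ∈ A := by
    intro x
    have h : (fun z : (V → St) × (V → St) => sg (z.1 x).2) =
        (1 / 2 : ℝ) • (al x + be x - ga x + de x) := by
      funext z
      simp only [Pi.smul_apply, Pi.add_apply, Pi.sub_apply, al, be, ga, de, uu, vv, smul_eq_mul]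
      ring
    rw [h]
    exact A.smul_mem (A.add_mem (A.sub_mem (A.add_mem (hal x) (hbe x)) (hga x)) (hde x)) _
  have h21 : ∀ x, (fun z : (V → St) × (V → St) => sg (z.2 x).1) ∈ A := by
    intro x
    have h : (fun z : (V → St) × (V → St) => sg (z.2 x).1) =
        (1 / 2 : ℝ) • (al x - be x + ga x + de x) := by
      funext z
      simp only [Pi.smul_apply, Pi.add_apply, Pi.sub_apply, al, be, ga, de, uu, vv, smul_eq_mul]
      ring
    rw [h]
    exact A.smul_mem (A.add_mem (A.add_mem (A.sub_mem (hal x) (hbe x)) (hga x)) (hde x)) _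
  have h22 : ∀ x, (fun z : (V → St) × (V → St) => sg (z.2 x).2) ∈ A := by
    intro x
    have h : (fun z : (V → St) × (V → St) => sg (z.2 x).2) =
        (1 / 2 : ℝ) • (al x - be x - ga x - de x) := by
      funext z
      simp only [Pi.smul_apply, Pi.add_apply, Pi.sub_apply, al, be, ga, de, uu, vv, smul_eq_mul]
      ring
    rw [h]
    exact A.smul_mem (A.sub_mem (A.sub_mem (A.sub_mem (hal x) (hbe x)) (hga x)) (hde x)) _
  let P : ((V → St) × (V → St)) → V → ((V → St) × (V → St) → ℝ) := fun z0 x z =>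
    ((1 + sg (z0.1 x).1 * sg (z.1 x).1) / 2) * ((1 + sg (z0.1 x).2 * sg (z.1 x).2) / 2) *
      (((1 + sg (z0.2 x).1 * sg (z.2 x).1) / 2) * ((1 + sg (z0.2 x).2 * sg (z.2 x).2) / 2))
  have hfac : ∀ (c : ℝ) (f : (V → St) × (V → St) → ℝ), f ∈ A →
      (fun z => (1 + c * f z) / 2) ∈ A := by
    intro c f hf
    have h : (fun z => (1 + c * f z) / 2) = (1 / 2 : ℝ) • (1 + c • f) := by
      funext z
      simp only [Pi.smul_apply, Pi.add_apply, Pi.one_apply, smul_eq_mul]
      ring
    rw [h]
    exact A.smul_mem (A.add_mem A.one_mem (A.smul_mem hf _)) _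
  have hP : ∀ z0 x, P z0 x ∈ A := by
    intro z0 x
    exact A.mul_mem (A.mul_mem (hfac _ _ (h11 x)) (hfac _ _ (h12 x)))
      (A.mul_mem (hfac _ _ (h21 x)) (hfac _ _ (h22 x)))
  have hind : ∀ z0, (∏ x : V, P z0 x) ∈ A := fun z0 => A.prod_mem fun x _ => hP z0 x
  have hval : ∀ z0 z, (∏ x : V, P z0 x) z = if z = z0 then 1 else 0 := by
    intro z0 z
    rw [Finset.prod_apply]
    by_cases hz : z = z0
    · rw [if_pos hz, hz]
      apply Finset.prod_eq_one
      intro x _
      simp only [P, sg_mul_self]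
      norm_num
    · rw [if_neg hz]
      obtain ⟨x, hx⟩ : ∃ x, (z0.1 x).1 ≠ (z.1 x).1 ∨ (z0.1 x).2 ≠ (z.1 x).2 ∨
          (z0.2 x).1 ≠ (z.2 x).1 ∨ (z0.2 x).2 ≠ (z.2 x).2 := by
        by_contra hc
        push Not at hc
        apply hz
        apply Prod.ext
        · funext x
          exact Prod.ext (hc x).1.symm (hc x).2.1.symm
        · funext x
          exact Prod.ext (hc x).2.2.1.symm (hc x).2.2.2.symm
      apply Finset.prod_eq_zero (Finset.mem_univ x)
      rcases hx with h | h | h | h <;> simp only [P, sg_mul_ne h] <;> ring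
  rw [eq_top_iff]
  intro f _
  rw [Subalgebra.mem_toSubmodule]
  have hf : f = ∑ z0 : (V → St) × (V → St), f z0 • ∏ x : V, P z0 x := by
    funext z
    rw [Finset.sum_apply, Finset.sum_eq_single z]
    · rw [Pi.smul_apply, hval, if_pos rfl, smul_eq_mul, mul_one]
    · intro z0 _ hne
      rw [Pi.smul_apply, hval, if_neg hne.symm, smul_zero]
    · intro h
      exact absurd (Finset.mem_univ z) h
  rw [hf]
  exact A.sum_mem fun z0 _ => A.smul_mem (hind z0) _

end Pool.Agent.H72.DJ
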