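import Pool.Agent.H72.DJ.Site
import Pool.Agent.H72.DJ.Rep

/-!
# Independent sites

PROOF. `mono_rep`; the double sum over `ζ`, `ζ'` of a product over the sites is the product over the
sites of the double sums (`Finset.prod_univ_sum`, after `(V → St) × (V → St) ≃ (V → St × St)`,
`Equiv.arrowProdEquivProdArrow`), and each is nonnegative by `site`.
-/

set_option autoImplicit false

namespace Pool.Agent.H72.DJ

variable {V : Type} [Fintype V] [DecidableEq V]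

private theorem sum_pi (h : V → St → ℝ) :
    ∑ ζ : V → St, ∏ x, h x (ζ x) = ∏ x, ∑ z : St, h x z := by
  rw [Finset.prod_univ_sum, Fintype.piFinset_univ]

theorem prod_pos (κ κ' : V → Kind) (hκ : ∀ x, κ x = Kind.C ∨ κ x = κ' x) (A : V → ℝ)
    (hA : ∀ x, 0 ≤ A x) {m : (V → St) × (V → St) → ℝ} (hm : m ∈ mono V) :
    0 ≤ ∑ ζ : V → St, ∑ ζ' : V → St,
      (∏ x, sw (κ x) (A x) (ζ x)) * (∏ x, sw (κ' x) (A x) (ζ' x)) * m (ζ, ζ') := by
  obtain ⟨a, b, c, d, rfl⟩ := mono_rep hm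
  have h1 : ∀ ζ ζ' : V → St,
      (∏ x, sw (κ x) (A x) (ζ x)) * (∏ x, sw (κ' x) (A x) (ζ' x)) *
        (∏ x : V, (al x (ζ, ζ') ^ a x * be x (ζ, ζ') ^ b x * ga x (ζ, ζ') ^ c x *
          de x (ζ, ζ') ^ d x)) =
      ∏ x, (sw (κ x) (A x) (ζ x) * sw (κ' x) (A x) (ζ' x) *
        ((uu (ζ x) + uu (ζ' x)) ^ a x * (uu (ζ x) - uu (ζ' x)) ^ b x *
          (vv (ζ x) + vv (ζ' x)) ^ c x * (vv (ζ' x) - vv (ζ x)) ^ d x)) := by
    intro ζ ζ'
    rw [← Finset.prod_mul_distrib, ← Finset.prod_mul_distrib]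
    rfl
  simp only [h1]
  have h2 : ∀ ζ : V → St, ∑ ζ' : V → St,
      ∏ x, (sw (κ x) (A x) (ζ x) * sw (κ' x) (A x) (ζ' x) *
        ((uu (ζ x) + uu (ζ' x)) ^ a x * (uu (ζ x) - uu (ζ' x)) ^ b x *
          (vv (ζ x) + vv (ζ' x)) ^ c x * (vv (ζ' x) - vv (ζ x)) ^ d x)) =
      ∏ x, ∑ z' : St, (sw (κ x) (A x) (ζ x) * sw (κ' x) (A x) z' *
        ((uu (ζ x) + uu z') ^ a x * (uu (ζ x) - uu z') ^ b x *
          (vv (ζ x) + vv z') ^ c x * (vv z' - vv (ζ x)) ^ d x)) := by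
    intro ζ
    exact sum_pi (fun x z' => sw (κ x) (A x) (ζ x) * sw (κ' x) (A x) z' *
        ((uu (ζ x) + uu z') ^ a x * (uu (ζ x) - uu z') ^ b x *
          (vv (ζ x) + vv z') ^ c x * (vv z' - vv (ζ x)) ^ d x))
  simp only [h2]
  rw [sum_pi (fun x z => ∑ z' : St, (sw (κ x) (A x) z * sw (κ' x) (A x) z' *
        ((uu z + uu z') ^ a x * (uu z - uu z') ^ b x *
          (vv z + vv z') ^ c x * (vv z' - vv z) ^ d x)))]
  exact Finset.prod_nonneg fun x _ => site (κ x) (κ' x) (hκ x) (A x) (hA x) _ _ _ _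

end Pool.Agent.H72.DJ
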