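import Pool.Agent.H72.DJ.Defs

/-!
# The inequality for one site

PROOF. `St = Bool × Bool` has four elements: `u = ±1, v = 0` (equal entries, weight `A`) and
`u = 0, v = ±1` (weight `1`). Kind `C`: only `(true, true)`, `u = 1, v = 0`; kind `H`: only
`(true, true)` and `(true, false)` (`u = 0, v = 1`). With 16 terms: use the parities of `a`, `b`,
`c`, `d` (`Nat.even_or_odd`, `zero_pow`) or group the terms as follows.
`κ = C`: `α = 1 + u' ≥ 0`, `β = 1 - u' ≥ 0`, `γ = δ = v'`. `κ = κ' = H`: `α, γ ≥ 0`, `β = δ`, and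
exchanging `z, z'` changes the sign of `β`. `κ = κ' = F`: both with `v = 0`: `(u+u')^a (u-u')^b [c=d=0]`;
both with `u = 0`: similarly; mixed: `A u^(a+b) v'^(c+d)` and `A u'^(a+b) (-1)^b v^(c+d) (-1)^d`.
-/

set_option autoImplicit false

namespace Pool.Agent.H72.DJ

private theorem site_core (A xa xb xc xd oa ob oc od ta tb tc td : ℝ) (hA : 0 ≤ A)
    (ha : xa = 1 ∨ xa = -1) (hb : xb = 1 ∨ xb = -1) (hc : xc = 1 ∨ xc = -1)
    (hd : xd = 1 ∨ xd = -1) (h1 : 0 ≤ oa) (h2 : 0 ≤ ob) (h3 : 0 ≤ oc) (h4 : 0 ≤ od)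
    (h5 : 0 ≤ ta) (h6 : 0 ≤ tb) (h7 : 0 ≤ tc) (h8 : 0 ≤ td) :
    0 ≤ A * A * (oc * od * ((1 + xa) * ta * ob + oa * ((1 + xb) * tb))) +
      oa * ob * ((1 + xc) * tc * od + oc * ((1 + xd) * td)) +
      A * (1 + xb * xd) * (1 + xa * xb) * (1 + xc * xd) := by
  have ka : 0 ≤ 1 + xa := by rcases ha with rfl | rfl <;> norm_num
  have kb : 0 ≤ 1 + xb := by rcases hb with rfl | rfl <;> norm_num
  have kc : 0 ≤ 1 + xc := by rcases hc with rfl | rfl <;> norm_num
  have kd : 0 ≤ 1 + xd := by rcases hd with rfl | rfl <;> norm_num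
  have k1 : 0 ≤ 1 + xb * xd := by
    rcases hb with rfl | rfl <;> rcases hd with rfl | rfl <;> norm_num
  have k2 : 0 ≤ 1 + xa * xb := by
    rcases ha with rfl | rfl <;> rcases hb with rfl | rfl <;> norm_num
  have k3 : 0 ≤ 1 + xc * xd := by
    rcases hc with rfl | rfl <;> rcases hd with rfl | rfl <;> norm_num
  positivity

private theorem sum_St (f : St → ℝ) :
    ∑ z : St, f z = f (true, true) + f (true, false) + f (false, true) + f (false, false) := by
  rw [Fintype.sum_prod_type]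
  simp only [Fintype.sum_bool]
  ring

private theorem neg_two_pow (n : ℕ) : (-2 : ℝ) ^ n = (-1) ^ n * 2 ^ n := by
  rw [← mul_pow]
  norm_num

private theorem swv (k : Kind) (A : ℝ) :
    sw k A (true, true) = A ∧ sw k A (true, false) = (if k = Kind.C then 0 else 1) ∧
      sw k A (false, true) = (if k = Kind.F then 1 else 0) ∧
      sw k A (false, false) = (if k = Kind.F then A else 0) := by
  cases k <;> simp [sw, Kind.ok]

private theorem uv :
    uu (true, true) = 1 ∧ uu (true, false) = 0 ∧ uu (false, true) = 0 ∧ uu (false, false) = -1 ∧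
    vv (true, true) = 0 ∧ vv (true, false) = 1 ∧ vv (false, true) = -1 ∧
      vv (false, false) = 0 := by
  simp only [uu, vv, sg]
  norm_num

theorem site (κ κ' : Kind) (hc : κ = Kind.C ∨ κ = κ') (A : ℝ) (hA : 0 ≤ A) (a b c d : ℕ) :
    0 ≤ ∑ z : St, ∑ z' : St, sw κ A z * sw κ' A z' *
      ((uu z + uu z') ^ a * (uu z - uu z') ^ b * (vv z + vv z') ^ c * (vv z' - vv z) ^ d) := by
  obtain ⟨u1, u2, u3, u4, v1, v2, v3, v4⟩ := uv
  obtain ⟨s1, s2, s3, s4⟩ := swv κ A
  obtain ⟨s1', s2', s3', s4'⟩ := swv κ' A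
  simp only [sum_St, u1, u2, u3, u4, v1, v2, v3, v4, s1, s2, s3, s4, s1', s2', s3', s4']
  have ea := neg_one_pow_eq_or ℝ a
  have eb := neg_one_pow_eq_or ℝ b
  have ec := neg_one_pow_eq_or ℝ c
  have ed := neg_one_pow_eq_or ℝ d
  have oa : (0 : ℝ) ≤ 0 ^ a := by positivity
  have ob : (0 : ℝ) ≤ 0 ^ b := by positivity
  have oc : (0 : ℝ) ≤ 0 ^ c := by positivity
  have od : (0 : ℝ) ≤ 0 ^ d := by positivity
  have ta : (0 : ℝ) ≤ 2 ^ a := by positivity
  have tb : (0 : ℝ) ≤ 2 ^ b := by positivity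
  have tc : (0 : ℝ) ≤ 2 ^ c := by positivity
  have td : (0 : ℝ) ≤ 2 ^ d := by positivity
  have n1 : (1 : ℝ) + 1 = 2 := by norm_num
  have n2 : (-1 : ℝ) + -1 = -2 := by norm_num
  have n3 : (-1 : ℝ) - 1 = -2 := by norm_num
  have n4 : (1 : ℝ) - -1 = 2 := by norm_num
  have n5 : (1 : ℝ) + -1 = 0 := by norm_num
  have n6 : (-1 : ℝ) + 1 = 0 := by norm_num
  have n7 : (1 : ℝ) - 1 = 0 := by norm_num
  have n8 : (-1 : ℝ) - -1 = 0 := by norm_num
  have n9 : (0 : ℝ) - -1 = 1 := by norm_num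
  have n10 : (0 : ℝ) - 1 = -1 := by norm_num
  simp only [n1, n2, n3, n4, n5, n6, n7, n8, n9, n10, add_zero, zero_add, sub_zero, one_pow,
    neg_two_pow]
  generalize (-1 : ℝ) ^ a = xa at *
  generalize (-1 : ℝ) ^ b = xb at *
  generalize (-1 : ℝ) ^ c = xc at *
  generalize (-1 : ℝ) ^ d = xd at *
  generalize (0 : ℝ) ^ a = ya at *
  generalize (0 : ℝ) ^ b = yb at *
  generalize (0 : ℝ) ^ c = yc at *
  generalize (0 : ℝ) ^ d = yd at *
  generalize (2 : ℝ) ^ a = za at *
  generalize (2 : ℝ) ^ b = zb at *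
  generalize (2 : ℝ) ^ c = zc at *
  generalize (2 : ℝ) ^ d = zd at *
  have k3 : 0 ≤ 1 + xc * xd := by
    rcases ec with rfl | rfl <;> rcases ed with rfl | rfl <;> norm_num
  have k1 : 0 ≤ 1 + xb * xd := by
    rcases eb with rfl | rfl <;> rcases ed with rfl | rfl <;> norm_num
  have kC : 0 ≤ A * A * (za * yb * yc * yd) := by positivity
  have kC2 : 0 ≤ A * A * (ya * zb * yc * yd) := by positivity
  have kC3 : 0 ≤ A * (1 + xc * xd) := by positivity
  have kH : 0 ≤ ya * yb * zc * yd := by positivity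
  have kH2 : 0 ≤ A * (1 + xb * xd) := by positivity
  have core := site_core A xa xb xc xd ya yb yc yd za zb zc zd hA ea eb ec ed oa ob oc od ta tb
    tc td
  rcases hc with rfl | rfl
  · cases κ' <;> simp <;> nlinarith
  · cases κ
    · simp
      nlinarith
    · simp
      nlinarith
    · simp only [reduceCtorEq, if_true, if_false]
      refine le_of_le_of_eq core ?_
      have eb2 : xb * xb = 1 := by rcases eb with rfl | rfl <;> norm_num
      have ed2 : xd * xd = 1 := by rcases ed with rfl | rfl <;> norm_num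
      linear_combination (A * xa * xd * (1 + xc * xd) + A * xa * xc * (1 - xd * xd)) * eb2 +
        (A * xb * xc * (1 + xa * xb)) * ed2

end Pool.Agent.H72.DJ
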