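import Mathlib

/-!
# Weak convergence on `E → Bool`

PROOF of `weak_of_cyl`. `ProbabilityMeasure (E → Bool)` is compact (`Mathlib`:
`MeasureTheory.Measure.Prokhorov`) and Hausdorff. Two cluster points `ν`, `ν'` of `μ` give the same
mass to every cylinder `{ω | ∀ e ∈ F, ω e = true}` (the indicator is continuous, `cyl_tendsto`
along the ultrafilters); the cylinders form a π-system which generates the σ-algebra, so `ν = ν'`.
Then use `le_nhds_of_unique_clusterPt` / `IsCompact.tendsto_nhds_of_unique_mapClusterPt`.
`cyl_tendsto`: the indicator of the cylinder is continuous (clopen set), `integral_indicator_one`.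
-/

set_option autoImplicit false

open MeasureTheory Filter Topology

namespace Pool.Agent.H72.DJ

private lemma cyl_meas {E : Type} (F : Finset E) :
    MeasurableSet {ω : E → Bool | ∀ e ∈ F, ω e = true} := by
  have h : {ω : E → Bool | ∀ e ∈ F, ω e = true} = ⋂ e ∈ F, (fun ω : E → Bool => ω e) ⁻¹' {true} := by
    ext ω; simp
  rw [h]
  exact Finset.measurableSet_biInter F fun e _ => measurable_pi_apply e (MeasurableSet.singleton _)

theorem cyl_tendsto {E : Type} [Countable E] {ι : Type} {l : Filter ι}
    (m : ι → Measure (E → Bool)) (ν : Measure (E → Bool))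
    (h : ∀ f : C(E → Bool, ℝ), Tendsto (fun n => ∫ ω, f ω ∂(m n)) l (𝓝 (∫ ω, f ω ∂ν)))
    (F : Finset E) :
    Tendsto (fun n => (m n).real {ω | ∀ e ∈ F, ω e = true}) l
      (𝓝 (ν.real {ω | ∀ e ∈ F, ω e = true})) := by
  classical
  let f : C(E → Bool, ℝ) := ⟨fun ω => ∏ e ∈ F, (if ω e = true then (1 : ℝ) else 0), by
    refine continuous_finsetProd _ fun e _ => ?_
    exact (continuous_of_discreteTopology (f := fun b : Bool => if b = true then (1 : ℝ) else 0)).comp
      (continuous_apply e)⟩
  have hf : ∀ ω : E → Bool, f ω = ({ω : E → Bool | ∀ e ∈ F, ω e = true}).indicator 1 ω := by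
    intro ω
    have h1 : f ω = ∏ e ∈ F, (if ω e = true then (1 : ℝ) else 0) := rfl
    rw [h1]
    by_cases hω : ∀ e ∈ F, ω e = true
    · rw [Set.indicator_of_mem (show ω ∈ {ω : E → Bool | ∀ e ∈ F, ω e = true} from hω)]
      exact Finset.prod_eq_one fun e he => if_pos (hω e he)
    · rw [Set.indicator_of_notMem (show ω ∉ {ω : E → Bool | ∀ e ∈ F, ω e = true} from hω)]
      push Not at hω
      obtain ⟨e, he, hne⟩ := hω
      exact Finset.prod_eq_zero he (if_neg (by simpa using hne))
  have hi : ∀ κ : Measure (E → Bool), ∫ ω, f ω ∂κ = κ.real {ω | ∀ e ∈ F, ω e = true} := by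
    intro κ
    rw [← integral_indicator_one (cyl_meas F)]
    exact integral_congr_ae (Filter.Eventually.of_forall hf)
  have h2 := h f
  simp only [hi] at h2
  exact h2

theorem weak_of_cyl {E : Type} [Countable E] (μ : ℕ → ProbabilityMeasure (E → Bool))
    (h : ∀ F : Finset E, ∃ c : ℝ, Tendsto
      (fun n => (μ n : Measure (E → Bool)).real {ω | ∀ e ∈ F, ω e = true}) atTop (𝓝 c)) :
    ∃ ν : ProbabilityMeasure (E → Bool), Tendsto μ atTop (𝓝 ν) := by
  classical
  have hcl : ∀ ν : ProbabilityMeasure (E → Bool), MapClusterPt ν atTop μ → ∀ F : Finset E,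
      ∀ c : ℝ, Tendsto (fun n => (μ n : Measure (E → Bool)).real {ω | ∀ e ∈ F, ω e = true})
        atTop (𝓝 c) → (ν : Measure (E → Bool)).real {ω | ∀ e ∈ F, ω e = true} = c := by
    intro ν hν F c hc
    obtain ⟨u, hu, hlim⟩ := mapClusterPt_iff_ultrafilter.1 hν
    have h1 : Tendsto (fun n => (μ n : Measure (E → Bool)).real {ω | ∀ e ∈ F, ω e = true}) u
        (𝓝 ((ν : Measure (E → Bool)).real {ω | ∀ e ∈ F, ω e = true})) := by
      refine cyl_tendsto (fun n => (μ n : Measure (E → Bool))) (ν : Measure (E → Bool)) ?_ F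
      intro f
      have h2 := (ProbabilityMeasure.tendsto_iff_forall_integral_tendsto.1 hlim)
        (BoundedContinuousFunction.mkOfCompact f)
      simpa using h2
    exact tendsto_nhds_unique h1 (hc.mono_left hu)
  obtain ⟨ν, -, hν⟩ := (isCompact_univ (X := ProbabilityMeasure (E → Bool))).exists_mapClusterPt
    (f := atTop) (u := μ) (by simp)
  refine ⟨ν, ?_⟩
  refine tendsto_nhds_of_unique_mapClusterPt ?_
  intro ν' hν'
  apply ProbabilityMeasure.toMeasure_injective
  have hpi : IsPiSystem {s : Set (E → Bool) | ∃ F : Finset E, s = {ω | ∀ e ∈ F, ω e = true}} := by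
    rintro s ⟨F, rfl⟩ t ⟨G, rfl⟩ -
    refine ⟨F ∪ G, ?_⟩
    ext ω
    simp only [Set.mem_inter_iff, Set.mem_ofPred_eq, Finset.mem_union]
    constructor
    · rintro ⟨h1, h2⟩ e (he | he)
      · exact h1 e he
      · exact h2 e he
    · intro h1
      exact ⟨fun e he => h1 e (Or.inl he), fun e he => h1 e (Or.inr he)⟩
  have hgen : (inferInstance : MeasurableSpace (E → Bool)) = MeasurableSpace.generateFrom
      {s : Set (E → Bool) | ∃ F : Finset E, s = {ω | ∀ e ∈ F, ω e = true}} := by
    apply le_antisymm
    · have : (inferInstance : MeasurableSpace (E → Bool)) =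
          ⨆ e : E, MeasurableSpace.comap (fun ω : E → Bool => ω e) ⊤ := rfl
      rw [this]
      refine iSup_le fun e => ?_
      rintro s ⟨t, -, rfl⟩
      have ht : MeasurableSet[MeasurableSpace.generateFrom
          {s : Set (E → Bool) | ∃ F : Finset E, s = {ω | ∀ e ∈ F, ω e = true}}]
          {ω : E → Bool | ω e = true} := by
        apply MeasurableSpace.measurableSet_generateFrom
        exact ⟨{e}, by ext ω; simp⟩
      by_cases h1 : true ∈ t <;> by_cases h2 : false ∈ t
      · have : (fun ω : E → Bool => ω e) ⁻¹' t = Set.univ := by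
          ext ω
          simp only [Set.mem_preimage, Set.mem_univ, iff_true]
          cases hω : ω e
          · exact h2
          · exact h1
        rw [this]; exact @MeasurableSet.univ _ (MeasurableSpace.generateFrom _)
      · have : (fun ω : E → Bool => ω e) ⁻¹' t = {ω | ω e = true} := by
          ext ω
          simp only [Set.mem_preimage, Set.mem_ofPred_eq]
          cases hω : ω e
          · simp [h2]
          · simp [h1]
        rw [this]; exact ht
      · have : (fun ω : E → Bool => ω e) ⁻¹' t = {ω | ω e = true}ᶜ := by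
          ext ω
          simp only [Set.mem_preimage, Set.mem_ofPred_eq, Set.mem_compl_iff]
          cases hω : ω e
          · simp [h2]
          · simp [h1]
        rw [this]
        exact @MeasurableSet.compl _ _ (MeasurableSpace.generateFrom _) ht
      · have : (fun ω : E → Bool => ω e) ⁻¹' t = ∅ := by
          ext ω
          simp only [Set.mem_preimage, Set.mem_empty_iff_false, iff_false]
          cases hω : ω e
          · exact h2
          · exact h1
        rw [this]; exact @MeasurableSet.empty _ (MeasurableSpace.generateFrom _)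
    · apply MeasurableSpace.generateFrom_le
      rintro s ⟨F, rfl⟩
      exact cyl_meas F
  refine ext_of_generate_finite _ hgen hpi ?_ ?_
  · rintro s ⟨F, rfl⟩
    obtain ⟨c, hc⟩ := h F
    have h1 := hcl ν hν F c hc
    have h2 := hcl ν' hν' F c hc
    have h3 : (ν' : Measure (E → Bool)).real {ω | ∀ e ∈ F, ω e = true} =
        (ν : Measure (E → Bool)).real {ω | ∀ e ∈ F, ω e = true} := by rw [h1, h2]
    exact (measureReal_eq_measureReal_iff).1 h3
  · simp

end Pool.Agent.H72.DJ
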